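import Mathlib

/-!
# Definitions for Born-Infeld minimizers

`E m` is `ℝᵐ`, `Ω` a bounded domain.
-/

set_option autoImplicit false

open MeasureTheory Metric Set
open scoped ENNReal

namespace Pool.Agent.U562.BI

/-- Euclidean space `ℝᵐ`. -/
abbrev E (m : ℕ) := EuclideanSpace ℝ (Fin m)

/-- `d(x, y)`: the infimum of the lengths of the polygonal paths `x = p 0, p 1, ..., p (n+1) = y`
all of whose points other than `x` and `y` are in `Ω` (`∞` if there is none). -/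
noncomputable def pathDist {m : ℕ} (Ω : Set (E m)) (x y : E m) : ℝ≥0∞ :=
  ⨅ (n : ℕ) (p : ℕ → E m) (_ : p 0 = x) (_ : p (n + 1) = y)
    (_ : ∀ i ≤ n, openSegment ℝ (p i) (p (i + 1)) ⊆ Ω) (_ : ∀ i < n, p (i + 1) ∈ Ω),
    ENNReal.ofReal (∑ i ∈ Finset.range (n + 1), dist (p i) (p (i + 1)))

/-- The class `𝒮(∂Ω)` of boundary data: `φ` is continuous on `∂Ω` and `|φ(x) - φ(y)| < d(x, y)` for
all `x ≠ y` in `∂Ω`. -/
def InS {m : ℕ} (Ω : Set (E m)) (φ : E m → ℝ) : Prop :=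
  ContinuousOn φ (frontier Ω) ∧
    ∀ x ∈ frontier Ω, ∀ y ∈ frontier Ω, x ≠ y → ENNReal.ofReal |φ x - φ y| < pathDist Ω x y

/-- The class `𝒴_φ(Ω)`: `v` is continuous on the closure of `Ω`, equal to `φ` on `∂Ω`, and locally
`1`-Lipschitz in `Ω` (that is `v ∈ W^{1,∞}`, `|Dv| ≤ 1` almost everywhere). -/
def InY {m : ℕ} (Ω : Set (E m)) (φ v : E m → ℝ) : Prop :=
  ContinuousOn v (closure Ω) ∧ (∀ x ∈ frontier Ω, v x = φ x) ∧
    ∀ x ∈ Ω, ∃ r > 0, ball x r ⊆ Ω ∧ LipschitzOnWith 1 v (ball x r)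

/-- The Born-Infeld functional `I_ρ(v) = ∫_Ω (1 - √(1 - |Dv|²)) - ∫_Ω ρ v`. -/
noncomputable def energy {m : ℕ} (Ω : Set (E m)) (ρ v : E m → ℝ) : ℝ :=
  (∫ x in Ω, (1 - √(1 - ‖fderiv ℝ v x‖ ^ 2))) - ∫ x in Ω, ρ x * v x

/-- `u` is a minimizer of `I_ρ` on `𝒴_φ(Ω)`. -/
def IsMinimizer {m : ℕ} (Ω : Set (E m)) (φ ρ u : E m → ℝ) : Prop :=
  InY Ω φ u ∧ ∀ v, InY Ω φ v → energy Ω ρ u ≤ energy Ω ρ v

/-- `u` has a light segment: a closed segment `xy` in `Ω`, `x ≠ y`, with `|u(x) - u(y)| = |x - y|`. -/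
def HasLightSegment {m : ℕ} (Ω : Set (E m)) (u : E m → ℝ) : Prop :=
  ∃ x y, x ≠ y ∧ segment ℝ x y ⊆ Ω ∧ |u x - u y| = dist x y

end Pool.Agent.U562.BI
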