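import Pool.Agent.U562.BI.Defs

/-!
# Integration by parts against the field `λ (x - c) / |x - c|^(m+1)`
-/

set_option autoImplicit false

open MeasureTheory Metric Set Real Filter Topology
open scoped ENNReal ContDiff

namespace Pool.Agent.U562.BI

section line

variable {V : Type*} [NormedAddCommGroup V] [InnerProductSpace ℝ V]

theorem hasDerivAt_norm_line {h b : V} (hh : h ≠ 0) :
    HasDerivAt (fun t : ℝ => ‖h + t • b‖) (inner ℝ b h / ‖h‖) 0 := by
  have h0 : 0 < ‖h‖ := norm_pos_iff.mpr hh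
  have hl : HasDerivAt (fun t : ℝ => h + t • b) b 0 := by
    simpa using ((hasDerivAt_id (0 : ℝ)).smul_const b).const_add h
  have h1 : HasDerivAt (fun t : ℝ => ‖h + t • b‖ ^ 2) (2 * inner ℝ (h + (0 : ℝ) • b) b) 0 :=
    hl.norm_sq
  have h2 := h1.sqrt (by simpa using h0.ne')
  have e : (fun t : ℝ => √(‖h + t • b‖ ^ 2)) = fun t => ‖h + t • b‖ := by
    funext t
    exact Real.sqrt_sq (norm_nonneg _)
  rw [e] at h2
  refine h2.congr_deriv ?_
  rw [zero_smul, add_zero, Real.sqrt_sq h0.le, real_inner_comm]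
  field_simp

theorem line_div {m : ℕ} {lam : ℝ} {h b : V} (hh : h ≠ 0) (hb : ‖b‖ = 1) :
    HasDerivAt (fun t : ℝ => lam / ‖h + t • b‖ ^ (m + 1) * inner ℝ b (h + t • b))
      (lam * (1 / ‖h‖ ^ (m + 1) - (m + 1) * inner ℝ b h ^ 2 / ‖h‖ ^ (m + 3))) 0 := by
  have h0 : 0 < ‖h‖ := norm_pos_iff.mpr hh
  have h1 := (hasDerivAt_norm_line (b := b) hh).pow (m + 1)
  have h2 := (hasDerivAt_const (0 : ℝ) lam).div h1 (by simpa using h0.ne')
  have hl : HasDerivAt (fun t : ℝ => h + t • b) b 0 := by
    simpa using ((hasDerivAt_id (0 : ℝ)).smul_const b).const_add h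
  have h3 : HasDerivAt (fun t : ℝ => inner ℝ b (h + t • b)) (inner ℝ b b) 0 := by
    have := (hasDerivAt_const (0 : ℝ) b).inner ℝ hl
    simpa using this
  have h4 := h2.mul h3
  refine h4.congr_deriv ?_
  rw [real_inner_self_eq_norm_sq, hb]
  simp only [zero_smul, add_zero, Pi.pow_apply, Pi.div_apply]
  have e1 : ‖h‖ ^ (m + 3) = ‖h‖ ^ m * ‖h‖ ^ 3 := by rw [pow_add]
  have e2 : ‖h‖ ^ (m + 1) = ‖h‖ ^ m * ‖h‖ := by rw [pow_succ]
  rw [e1, e2]
  have hm : 0 < ‖h‖ ^ m := by positivity
  push_cast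
  field_simp
  ring

end line

variable {m : ℕ}

theorem ibp {lam : ℝ} {c : E m} {z : E m → ℝ} {C : NNReal} (hz : LipschitzWith C z)
    {a b : ℝ} (ha : 0 < a) (hb : 0 ≤ b) (hsupp : ∀ x, z x ≠ 0 → a ≤ ‖x - c‖ ∧ ‖x - c‖ ≤ b) :
    Integrable (fun x => fderiv ℝ z x ((lam / ‖x - c‖ ^ (m + 1)) • (x - c))) ∧
    ∫ x, fderiv ℝ z x ((lam / ‖x - c‖ ^ (m + 1)) • (x - c))
      = ∫ x, lam / ‖x - c‖ ^ (m + 1) * z x := by
  classical
  -- the cut-off
  let f1 : ContDiffBump c := ⟨b + 1, b + 2, by linarith, by linarith⟩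
  let f0 : ContDiffBump c := ⟨a / 4, a / 2, by positivity, by linarith⟩
  set χ : E m → ℝ := fun x => f1 x - f0 x with hχ
  have hχs : ContDiff ℝ 1 χ := f1.contDiff.sub f0.contDiff
  have hχ1 : ∀ x, a / 2 ≤ ‖x - c‖ → ‖x - c‖ ≤ b + 1 → χ x = 1 := by
    intro x h1 h2
    have e1 : f1 x = 1 := f1.one_of_mem_closedBall (by
      rw [mem_closedBall, dist_eq_norm]
      exact h2)
    have e0 : f0 x = 0 := f0.zero_of_le_dist (by
      rw [dist_eq_norm]
      exact h1)
    simp [hχ, e1, e0]
  have hχ0 : ∀ x, ‖x - c‖ < a / 4 → a / 4 ≤ b + 1 → χ x = 0 := by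
    intro x h1 h2
    have e1 : f1 x = 1 := f1.one_of_mem_closedBall (by
      rw [mem_closedBall, dist_eq_norm]
      exact h1.le.trans h2)
    have e0 : f0 x = 1 := f0.one_of_mem_closedBall (by
      rw [mem_closedBall, dist_eq_norm]
      exact h1.le)
    simp [hχ, e1, e0]
  by_cases hz0 : ∀ x, z x = 0
  · have : z = fun _ => 0 := funext hz0
    subst this
    simp
  obtain ⟨x0, hx0⟩ := not_forall.1 hz0
  have hab : a ≤ b := (hsupp x0 hx0).1.trans (hsupp x0 hx0).2
  have hχc : HasCompactSupport χ := by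
    refine HasCompactSupport.intro (K := closedBall c (b + 2)) (isCompact_closedBall _ _) ?_
    intro x hx
    rw [mem_closedBall, not_le, dist_eq_norm] at hx
    have e1 : f1 x = 0 := f1.zero_of_le_dist (by
      rw [dist_eq_norm]
      exact hx.le)
    have e0 : f0 x = 0 := f0.zero_of_le_dist (by
      rw [dist_eq_norm]
      show a / 2 ≤ ‖x - c‖
      linarith)
    simp [hχ, e1, e0]
  let B := EuclideanSpace.basisFun (Fin m) ℝ
  set W : Fin m → E m → ℝ := fun i x => lam / ‖x - c‖ ^ (m + 1) * inner ℝ (B i) (x - c) with hW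
  set Y : Fin m → E m → ℝ := fun i x => χ x * W i x with hY
  have hYs : ∀ i, ContDiff ℝ 1 (Y i) := by
    intro i
    rw [contDiff_iff_contDiffAt]
    intro x
    rcases eq_or_ne x c with h | h
    · subst h
      have : Y i =ᶠ[𝓝 x] fun _ => 0 := by
        have hb1 : ball x (a / 4) ∈ 𝓝 x := ball_mem_nhds _ (by positivity)
        filter_upwards [hb1] with y hy
        rw [mem_ball, dist_eq_norm] at hy
        simp only [hY]
        rw [hχ0 y hy (by linarith), zero_mul]
      exact contDiffAt_const.congr_of_eventuallyEq this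
    · have h1 : x - c ≠ 0 := sub_ne_zero.2 h
      have h2 : ContDiffAt ℝ 1 (fun x : E m => ‖x - c‖) x :=
        (contDiffAt_id.sub contDiffAt_const).norm ℝ h1
      have h3 : ContDiffAt ℝ 1 (W i) x := by
        refine (contDiffAt_const.div (h2.pow _) ?_).mul ?_
        · have := norm_pos_iff.mpr h1
          positivity
        · exact (contDiffAt_const (c := B i)).inner ℝ (contDiffAt_id.sub contDiffAt_const)
      exact hχs.contDiffAt.mul h3
  have hYc : ∀ i, HasCompactSupport (Y i) := fun i => hχc.mul_right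
  have hYl : ∀ i, ∃ D, LipschitzWith D (Y i) := fun i =>
    ContDiff.lipschitzWith_of_hasCompactSupport (hYc i) (hYs i) (by simp)
  have key : ∀ i, ∫ x, lineDeriv ℝ z x (B i) * Y i x = ∫ x, lineDeriv ℝ (Y i) x (-(B i)) * z x := by
    intro i
    obtain ⟨D, hD⟩ := hYl i
    exact hz.integral_lineDeriv_mul_eq hD (hYc i) (B i)
  have hzt : ∀ x ∈ tsupport z, a ≤ ‖x - c‖ ∧ ‖x - c‖ ≤ b := by
    intro x hx
    have hcl : IsClosed {x : E m | a ≤ ‖x - c‖ ∧ ‖x - c‖ ≤ b} := by
      refine IsClosed.inter ?_ ?_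
      · exact isClosed_le continuous_const (by fun_prop : Continuous fun x : E m => ‖x - c‖)
      · exact isClosed_le (by fun_prop : Continuous fun x : E m => ‖x - c‖) continuous_const
    exact closure_minimal (fun x hx => hsupp x hx) hcl hx
  have hzc : HasCompactSupport z := by
    refine HasCompactSupport.intro (K := closedBall c b) (isCompact_closedBall _ _) ?_
    intro x hx
    by_contra h
    rw [mem_closedBall, dist_eq_norm] at hx
    exact hx (hsupp x h).2
  have hdz : ∀ᵐ x, DifferentiableAt ℝ z x := hz.ae_differentiableAt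
  -- left-hand side
  have L1 : ∀ᵐ x : E m, fderiv ℝ z x ((lam / ‖x - c‖ ^ (m + 1)) • (x - c))
      = ∑ i, lineDeriv ℝ z x (B i) * Y i x := by
    filter_upwards [hdz] with x hx
    have e1 : ∀ i, lineDeriv ℝ z x (B i) = fderiv ℝ z x (B i) := fun i => hx.lineDeriv_eq_fderiv
    by_cases hxt : x ∈ tsupport z
    · obtain ⟨h1, h2⟩ := hzt x hxt
      have e2 : χ x = 1 := hχ1 x (by linarith) (by linarith)
      have e3 : (lam / ‖x - c‖ ^ (m + 1)) • (x - c) = ∑ i, Y i x • B i := by
        refine (congrArg (fun v => (lam / ‖x - c‖ ^ (m + 1)) • v) (B.sum_repr' (x - c)).symm).trans ?_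
        rw [Finset.smul_sum]
        refine Finset.sum_congr rfl fun i _ => ?_
        simp only [hY, hW, e2, one_mul, smul_smul]
      rw [e3, map_sum]
      refine Finset.sum_congr rfl fun i _ => ?_
      rw [map_smul, e1, smul_eq_mul, mul_comm]
    · have e2 : fderiv ℝ z x = 0 := fderiv_of_notMem_tsupport _ hxt
      simp [e1, e2]
  have R1 : ∀ x : E m, ∑ i, lineDeriv ℝ (Y i) x (-(B i)) * z x
      = lam / ‖x - c‖ ^ (m + 1) * z x := by
    intro x
    by_cases hxz : z x = 0
    · simp [hxz]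
    · obtain ⟨h1, h2⟩ := hsupp x hxz
      have hxc : x - c ≠ 0 := by
        rw [← norm_pos_iff]
        linarith
      have e2 : ∀ i, lineDeriv ℝ (Y i) x (-(B i)) =
          -(lam * (1 / ‖x - c‖ ^ (m + 1)
            - (m + 1) * inner ℝ (B i) (x - c) ^ 2 / ‖x - c‖ ^ (m + 3))) := by
        intro i
        have hd : DifferentiableAt ℝ (Y i) x := (hYs i).differentiable (by norm_num) x
        rw [hd.lineDeriv_eq_fderiv, map_neg, ← hd.lineDeriv_eq_fderiv]
        congr 1
        have h3 : (fun t : ℝ => Y i (x + t • B i)) =ᶠ[𝓝 0]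
            fun t => lam / ‖(x - c) + t • B i‖ ^ (m + 1) * inner ℝ (B i) ((x - c) + t • B i) := by
          have hc1 : Continuous fun t : ℝ => ‖x + t • B i - c‖ := by fun_prop
          have hev : ∀ᶠ t : ℝ in 𝓝 0, a / 2 < ‖x + t • B i - c‖ ∧ ‖x + t • B i - c‖ < b + 1 := by
            refine hc1.continuousAt.eventually (p := fun s : ℝ => a / 2 < s ∧ s < b + 1) ?_
            have : ‖x + (0 : ℝ) • B i - c‖ ∈ Ioo (a / 2) (b + 1) := by
              rw [zero_smul, add_zero]
              constructor <;> linarith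
            exact Ioo_mem_nhds this.1 this.2
          filter_upwards [hev] with t ht
          simp only [hY, hW]
          rw [hχ1 _ ht.1.le ht.2.le, one_mul]
          have : x + t • B i - c = (x - c) + t • B i := by abel
          rw [this]
        have h4 := (line_div (m := m) (lam := lam) (h := x - c) (b := B i) hxc
          (B.norm_eq_one i)).congr_of_eventuallyEq h3
        exact h4.deriv
      rw [← Finset.sum_mul, Finset.sum_congr rfl fun i _ => e2 i, Finset.sum_neg_distrib,
        ← Finset.mul_sum, Finset.sum_sub_distrib]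
      have e3 : ∑ i, ((m : ℝ) + 1) * inner ℝ (B i) (x - c) ^ 2 / ‖x - c‖ ^ (m + 3)
          = (m + 1) * ‖x - c‖ ^ 2 / ‖x - c‖ ^ (m + 3) := by
        rw [← Finset.sum_div, ← Finset.mul_sum, B.sum_sq_inner_right]
      rw [e3]
      simp only [Finset.sum_const, Finset.card_univ, Fintype.card_fin, nsmul_eq_mul]
      have h0 : 0 < ‖x - c‖ := norm_pos_iff.mpr hxc
      have e1 : ‖x - c‖ ^ (m + 3) = ‖x - c‖ ^ m * ‖x - c‖ ^ 3 := by rw [pow_add]
      have e4 : ‖x - c‖ ^ (m + 1) = ‖x - c‖ ^ m * ‖x - c‖ := by rw [pow_succ]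
      rw [e1, e4]
      have hm : 0 < ‖x - c‖ ^ m := by positivity
      field_simp
      ring
  have iL : ∀ i, Integrable fun x => lineDeriv ℝ z x (B i) * Y i x := by
    intro i
    have h1 := hz.locallyIntegrable_lineDeriv (μ := (volume : Measure (E m))) (B i)
    have := h1.integrable_smul_right_of_hasCompactSupport (hYs i).continuous (hYc i)
    simpa [smul_eq_mul] using this
  have iR : ∀ i, Integrable fun x => lineDeriv ℝ (Y i) x (-(B i)) * z x := by
    intro i
    obtain ⟨D, hD⟩ := hYl i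
    have h1 := hD.locallyIntegrable_lineDeriv (μ := (volume : Measure (E m))) (-(B i))
    have := h1.integrable_smul_right_of_hasCompactSupport hz.continuous hzc
    simpa [smul_eq_mul] using this
  refine ⟨(integrable_finsetSum _ fun i _ => iL i).congr (L1.mono fun x hx => hx.symm), ?_⟩
  rw [integral_congr_ae L1, integral_finsetSum _ fun i _ => iL i,
    Finset.sum_congr rfl fun i _ => key i, ← integral_finsetSum _ fun i _ => iR i]
  exact integral_congr_ae (Eventually.of_forall R1)

end Pool.Agent.U562.BI
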