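import Pool.Agent.U562.BI.Prof
import Pool.Agent.U562.BI.Ibp

/-!
# The energy comparison with the truncated cone
-/

set_option autoImplicit false

open MeasureTheory Metric Set Real Filter Topology
open scoped ENNReal

namespace Pool.Agent.U562.BI

variable {m : ℕ}

/-- A locally `1`-Lipschitz function is `1`-Lipschitz on convex sets. -/
theorem lip_convex {Ω : Set (E m)} {v : E m → ℝ}
    (hv : ∀ x ∈ Ω, ∃ r > 0, ball x r ⊆ Ω ∧ LipschitzOnWith 1 v (ball x r)) {K : Set (E m)}
    (hK : Convex ℝ K) (hKΩ : K ⊆ Ω) : LipschitzOnWith 1 v K := by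
  have hcont : ∀ x ∈ Ω, ContinuousAt v x := by
    intro x hx
    obtain ⟨r, hr, -, hl⟩ := hv x hx
    exact hl.continuousOn.continuousAt (ball_mem_nhds x hr)
  refine LipschitzOnWith.of_dist_le_mul fun x hx y hy => ?_
  rw [NNReal.coe_one, one_mul]
  set γ : ℝ → E m := fun t => x + t • (y - x) with hγ
  have hγK : ∀ t ∈ Icc (0 : ℝ) 1, γ t ∈ K := by
    intro t ht
    have := hK.add_smul_sub_mem hx hy ht
    exact this
  have hγc : Continuous γ := by fun_prop
  have hsub : Icc (0 : ℝ) 1 ⊆ {t : ℝ | |v (γ t) - v x| ≤ t * ‖y - x‖} := by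
    refine IsClosed.Icc_subset_of_forall_exists_gt ?_ ?_ ?_
    · have h1 : ContinuousOn (fun t => t * ‖y - x‖ - |v (γ t) - v x|) (Icc 0 1) := by
        intro t ht
        have h2 : ContinuousAt v (γ t) := hcont _ (hKΩ (hγK t ht))
        have h3 : ContinuousAt (fun t => v (γ t)) t := h2.comp hγc.continuousAt
        exact ((continuousAt_id.mul continuousAt_const).sub
          ((h3.sub continuousAt_const).abs)).continuousWithinAt
      have h2 := h1.preimage_isClosed_of_isClosed isClosed_Icc (isClosed_Ici (a := (0 : ℝ)))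
      have h3 : {t : ℝ | |v (γ t) - v x| ≤ t * ‖y - x‖} ∩ Icc 0 1
          = Icc 0 1 ∩ (fun t => t * ‖y - x‖ - |v (γ t) - v x|) ⁻¹' Ici 0 := by
        ext t
        simp only [mem_inter_iff, Set.mem_ofPred_eq, mem_preimage, mem_Ici, sub_nonneg]
        tauto
      rw [h3]
      exact h2
    · simp [hγ]
    · rintro t ⟨ht1, ht2⟩ s hs
      obtain ⟨r, hr, -, hl⟩ := hv (γ t) (hKΩ (hγK t ⟨ht2.1, ht2.2.le⟩))
      have hs' : t < s := hs
      set δ := min (s - t) (r / (2 * (‖y - x‖ + 1))) with hδ
      have hn := norm_nonneg (y - x)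
      have hδ0 : 0 < δ := lt_min (by linarith) (by positivity)
      refine ⟨t + δ, ?_, by linarith, ?_⟩
      · have e1 : γ (t + δ) - γ t = δ • (y - x) := by
          simp only [hγ, add_smul]
          abel
        have h1 : dist (γ (t + δ)) (γ t) = δ * ‖y - x‖ := by
          rw [dist_eq_norm, e1, norm_smul, Real.norm_eq_abs, abs_of_pos hδ0]
        have h2 : δ * ‖y - x‖ < r := by
          have h3 : δ ≤ r / (2 * (‖y - x‖ + 1)) := min_le_right _ _
          rw [le_div_iff₀ (by positivity)] at h3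
          nlinarith
        have h3 := hl.dist_le_mul (γ (t + δ)) (by rw [mem_ball, h1]; exact h2) (γ t)
          (mem_ball_self hr)
        rw [NNReal.coe_one, one_mul, h1, Real.dist_eq] at h3
        have ht1' : |v (γ t) - v x| ≤ t * ‖y - x‖ := ht1
        show |v (γ (t + δ)) - v x| ≤ (t + δ) * ‖y - x‖
        have h4 : |v (γ (t + δ)) - v x| ≤ |v (γ (t + δ)) - v (γ t)| + |v (γ t) - v x| := by
          have := abs_add_le (v (γ (t + δ)) - v (γ t)) (v (γ t) - v x)
          simpa using this
        linarith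
      · have := min_le_left (s - t) (r / (2 * (‖y - x‖ + 1)))
        linarith
  have h1 : (1 : ℝ) ∈ {t : ℝ | |v (γ t) - v x| ≤ t * ‖y - x‖} := hsub ⟨zero_le_one, le_rfl⟩
  have h2 : |v (γ 1) - v x| ≤ 1 * ‖y - x‖ := h1
  have e1 : γ 1 = y := by simp [hγ]
  rw [e1, one_mul] at h2
  rw [dist_comm, Real.dist_eq, dist_comm, dist_eq_norm]
  exact h2

/-- The comparison function. -/
noncomputable def ww (lam a : ℝ) (c : E m) (k : ℝ) (x : E m) : ℝ := k + psi m lam a ‖x - c‖

theorem ww_lip (lam a : ℝ) (c : E m) (k : ℝ) : LipschitzWith 1 (ww lam a c k) := by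
  have h1 : LipschitzWith 1 (fun x : E m => ‖x - c‖) := by
    refine LipschitzWith.of_dist_le_mul fun x y => ?_
    rw [NNReal.coe_one, one_mul, Real.dist_eq, dist_eq_norm]
    have := abs_norm_sub_norm_le (x - c) (y - c)
    simpa using this
  have h2 := (psi_lip m lam a).comp h1
  rw [one_mul] at h2
  refine LipschitzWith.of_dist_le_mul fun x y => ?_
  have h3 := h2.dist_le_mul x y
  simp only [Function.comp_apply] at h3
  unfold ww
  rw [dist_add_left]
  exact h3

theorem ww_fderiv {lam a : ℝ} {c : E m} {k : ℝ} {x : E m} (hx : x ≠ c) :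
    HasFDerivAt (ww lam a c k) ((gg m lam ‖x - c‖ / ‖x - c‖) • (innerSL ℝ (x - c))) x := by
  have h0 : 0 < ‖x - c‖ := norm_pos_iff.mpr (sub_ne_zero.2 hx)
  have h1 : HasFDerivAt (fun y : E m => ‖y - c‖ ^ 2) (2 • (innerSL ℝ (x - c))) x := by
    have h2 := (hasStrictFDerivAt_norm_sq (x - c)).hasFDerivAt
    have h3 : HasFDerivAt (fun y : E m => y - c) (ContinuousLinearMap.id ℝ (E m)) x :=
      (hasFDerivAt_id x).sub_const c
    have h4 := h2.comp x h3
    have e : (2 • (innerSL ℝ (x - c))).comp (ContinuousLinearMap.id ℝ (E m))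
        = 2 • (innerSL ℝ (x - c)) := by
      ext
      simp
    rw [e] at h4
    exact h4
  have h2 := h1.sqrt (by positivity)
  have e : (fun y : E m => √(‖y - c‖ ^ 2)) = fun y => ‖y - c‖ := by
    funext y
    exact Real.sqrt_sq (norm_nonneg _)
  rw [e, Real.sqrt_sq h0.le] at h2
  have h3 := ((hasDerivAt_psi m lam a ‖x - c‖).comp_hasFDerivAt x h2).const_add k
  refine h3.congr_fderiv ?_
  ext y
  simp
  field_simp

/-- Equality in the duality inequality for the comparison function. -/
theorem ww_dual {lam a : ℝ} {c : E m} {k : ℝ} {x : E m} (hlam : 0 < lam) (hx : x ≠ c) :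
    √(1 - ‖fderiv ℝ (ww lam a c k) x‖ ^ 2)
      + fderiv ℝ (ww lam a c k) x ((lam / ‖x - c‖ ^ (m + 1)) • (x - c))
      = √(1 + ‖(lam / ‖x - c‖ ^ (m + 1)) • (x - c)‖ ^ 2) := by
  rw [(ww_fderiv hx).fderiv]
  set R := ‖x - c‖ with hR
  have h0 : 0 < R := norm_pos_iff.mpr (sub_ne_zero.2 hx)
  have hg := gg_pos m lam R
  have n1 : ‖(gg m lam R / R) • (innerSL ℝ (x - c))‖ = gg m lam R := by
    rw [norm_smul, innerSL_apply_norm, ← hR, Real.norm_eq_abs, abs_of_pos (by positivity)]
    field_simp
  have n2 : ‖(lam / R ^ (m + 1)) • (x - c)‖ = lam / R ^ m := by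
    rw [norm_smul, ← hR, Real.norm_eq_abs, abs_of_pos (by positivity), pow_succ]
    field_simp
  have n3 : ((gg m lam R / R) • (innerSL ℝ (x - c))) ((lam / R ^ (m + 1)) • (x - c))
      = gg m lam R * (lam / R ^ m) := by
    simp only [ContinuousLinearMap.smul_apply, map_smul, innerSL_apply_apply, smul_eq_mul]
    rw [real_inner_self_eq_norm_sq, ← hR, pow_succ]
    field_simp
  rw [n1, n2, n3]
  have hs : 0 < √(1 + R ^ (2 * m) / lam ^ 2) := Real.sqrt_pos.2 (one_add_pos m lam R)
  set Z := lam / R ^ m with hZ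
  have hZ0 : 0 < Z := by positivity
  have e1 : R ^ (2 * m) / lam ^ 2 = 1 / Z ^ 2 := by
    rw [hZ, div_pow, one_div_div, mul_comm 2 m, pow_mul]
  clear_value Z
  have e2 : gg m lam R = Z / √(1 + Z ^ 2) := by
    unfold gg
    rw [e1]
    have e3 : 1 + 1 / Z ^ 2 = (1 + Z ^ 2) / Z ^ 2 := by
      field_simp
      ring
    rw [e3, Real.sqrt_div (by positivity), Real.sqrt_sq hZ0.le, one_div_div]
  have hs2 : 0 < √(1 + Z ^ 2) := Real.sqrt_pos.2 (by positivity)
  have hsq : √(1 + Z ^ 2) ^ 2 = 1 + Z ^ 2 := Real.sq_sqrt (by positivity)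
  have e4 : √(1 - gg m lam R ^ 2) = 1 / √(1 + Z ^ 2) := by
    have : 1 - gg m lam R ^ 2 = (1 / √(1 + Z ^ 2)) ^ 2 := by
      rw [e2, div_pow, div_pow, hsq]
      field_simp
      ring
    rw [this, Real.sqrt_sq (by positivity)]
  rw [e4, e2]
  field_simp
  rw [hsq]

/-- The difference of `u` and the competitor. -/
noncomputable def zz (u : E m → ℝ) (lam a b : ℝ) (c : E m) (x : E m) : ℝ :=
  if ‖x - c‖ < b then max (u x - ww lam a c (u c) x) 0 else 0

theorem zz_nonneg (u : E m → ℝ) (lam a b : ℝ) (c x : E m) : 0 ≤ zz u lam a b c x := by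
  unfold zz
  split_ifs
  · exact le_max_right _ _
  · exact le_rfl

section main

variable {Ω : Set (E m)} {φ ρ u : E m → ℝ} {c : E m} {lam a b₂ b₃ : ℝ}

theorem zz_supp (hu : LipschitzOnWith 1 u (closedBall c b₃)) (ha : 0 < a)
    (h23 : b₂ < b₃)
    (hB : ∀ x, b₂ ≤ ‖x - c‖ → ‖x - c‖ ≤ b₃ → u x ≤ ww lam a c (u c) x) (x : E m)
    (hx : zz u lam a b₃ c x ≠ 0) : a ≤ ‖x - c‖ ∧ ‖x - c‖ ≤ b₂ := by
  unfold zz at hx
  split_ifs at hx with h
  · constructor
    · by_contra h1
      rw [not_le] at h1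
      apply hx
      apply max_eq_right
      have h2 := hu.dist_le_mul x (by rw [mem_closedBall, dist_eq_norm]; exact h.le) c
        (by
          rw [mem_closedBall, dist_self]
          exact (norm_nonneg (x - c)).trans h.le)
      rw [NNReal.coe_one, one_mul, Real.dist_eq, dist_eq_norm] at h2
      have h3 := le_psi_of_le (m := m) (lam := lam) h1.le
      have h4 := le_abs_self (u x - u c)
      unfold ww
      linarith
    · by_contra h1
      rw [not_le] at h1
      apply hx
      apply max_eq_right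
      have := hB x h1.le h.le
      linarith
  · exact absurd rfl hx

theorem zz_lip (hu : LipschitzOnWith 1 u (closedBall c b₃)) (ha : 0 < a)
    (h23 : b₂ < b₃)
    (hB : ∀ x, b₂ ≤ ‖x - c‖ → ‖x - c‖ ≤ b₃ → u x ≤ ww lam a c (u c) x) :
    ∃ C : NNReal, LipschitzWith C (zz u lam a b₃ c) := by
  have hw := ww_lip lam a c (u c)
  have hin : ∀ x y, ‖x - c‖ < b₃ → ‖y - c‖ < b₃ →
      |zz u lam a b₃ c x - zz u lam a b₃ c y| ≤ 2 * dist x y := by
    intro x y hx hy
    unfold zz
    rw [if_pos hx, if_pos hy]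
    have h1 := hu.dist_le_mul x (by rw [mem_closedBall, dist_eq_norm]; exact hx.le) y
      (by rw [mem_closedBall, dist_eq_norm]; exact hy.le)
    have h2 := hw.dist_le_mul x y
    rw [NNReal.coe_one, one_mul, Real.dist_eq] at h1 h2
    have h3 := abs_max_sub_max_le_abs (u x - ww lam a c (u c) x) (u y - ww lam a c (u c) y) 0
    refine h3.trans ?_
    have e : u x - ww lam a c (u c) x - (u y - ww lam a c (u c) y)
        = (u x - u y) - (ww lam a c (u c) x - ww lam a c (u c) y) := by ring
    rw [e]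
    have := abs_sub (u x - u y) (ww lam a c (u c) x - ww lam a c (u c) y)
    linarith
  have hbd : ∀ x, |zz u lam a b₃ c x| ≤ 4 * |b₃| := by
    intro x
    by_cases hz : zz u lam a b₃ c x = 0
    · rw [hz, abs_zero]
      positivity
    · obtain ⟨h1, h2⟩ := zz_supp hu ha h23 hB x hz
      have h3 : ‖x - c‖ < b₃ := by linarith
      have hb : 0 < b₃ := by linarith
      have hc : ‖c - c‖ < b₃ := by simpa using hb
      have h4 := hin x c h3 hc
      have hzc : zz u lam a b₃ c c = 0 := by
        by_contra h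
        have := (zz_supp hu ha h23 hB c h).1
        simp at this
        linarith
      rw [hzc, sub_zero] at h4
      rw [abs_of_pos hb]
      rw [dist_eq_norm] at h4
      linarith
  refine ⟨Real.toNNReal (max 2 (4 * |b₃| / (b₃ - b₂))), LipschitzWith.of_dist_le_mul fun x y => ?_⟩
  rw [Real.coe_toNNReal _ (le_trans (by norm_num) (le_max_left _ _)), Real.dist_eq]
  have hd : 0 ≤ dist x y := dist_nonneg
  -- the mixed case
  have hmix : ∀ x y, ‖x - c‖ < b₃ → ¬ ‖y - c‖ < b₃ →
      |zz u lam a b₃ c x - zz u lam a b₃ c y| ≤ (4 * |b₃| / (b₃ - b₂)) * dist x y := by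
    intro x y hx hy
    have hzy : zz u lam a b₃ c y = 0 := by
      unfold zz
      rw [if_neg hy]
    rw [hzy, sub_zero]
    by_cases hz : zz u lam a b₃ c x = 0
    · rw [hz, abs_zero]
      have : 0 < b₃ - b₂ := by linarith
      positivity
    · obtain ⟨-, h2⟩ := zz_supp hu ha h23 hB x hz
      have h3 : b₃ - b₂ ≤ dist x y := by
        rw [not_lt] at hy
        have h4 : ‖y - c‖ ≤ ‖y - x‖ + ‖x - c‖ := by
          have := norm_add_le (y - x) (x - c)
          simpa using this
        rw [dist_comm, dist_eq_norm]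
        linarith
      have h5 : 0 < b₃ - b₂ := by linarith
      refine (hbd x).trans ?_
      rw [div_mul_eq_mul_div, le_div_iff₀ h5]
      have : 0 ≤ 4 * |b₃| := by positivity
      nlinarith
  by_cases hx : ‖x - c‖ < b₃
  · by_cases hy : ‖y - c‖ < b₃
    · exact (hin x y hx hy).trans (by gcongr; exact le_max_left _ _)
    · exact (hmix x y hx hy).trans (by gcongr; exact le_max_right _ _)
  · by_cases hy : ‖y - c‖ < b₃
    · rw [abs_sub_comm, dist_comm]
      exact (hmix y x hy hx).trans (by gcongr; exact le_max_right _ _)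
    · have h1 : zz u lam a b₃ c x = 0 := by
        unfold zz
        rw [if_neg hx]
      have h2 : zz u lam a b₃ c y = 0 := by
        unfold zz
        rw [if_neg hy]
      rw [h1, h2, sub_self, abs_zero]
      have : 0 ≤ max 2 (4 * |b₃| / (b₃ - b₂)) := le_trans (by norm_num) (le_max_left _ _)
      positivity

theorem competitor (hO : IsOpen Ω) (hu : InY Ω φ u) (hball : closedBall c b₃ ⊆ Ω) (ha : 0 < a)
    (h23 : b₂ < b₃)
    (hB : ∀ x, b₂ ≤ ‖x - c‖ → ‖x - c‖ ≤ b₃ → u x ≤ ww lam a c (u c) x) :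
    InY Ω φ (fun x => u x - zz u lam a b₃ c x) := by
  obtain ⟨hc, hf, hl⟩ := hu
  have hul : LipschitzOnWith 1 u (closedBall c b₃) := lip_convex hl (convex_closedBall _ _) hball
  obtain ⟨C, hC⟩ := zz_lip hul ha h23 hB
  refine ⟨hc.sub hC.continuous.continuousOn, fun x hx => ?_, fun x hx => ?_⟩
  · have hxΩ : x ∉ Ω := by
      rw [hO.frontier_eq] at hx
      exact hx.2
    have h1 : ¬ ‖x - c‖ < b₃ := fun h => hxΩ (hball (by
      rw [mem_closedBall, dist_eq_norm]
      exact h.le))
    have h2 : zz u lam a b₃ c x = 0 := by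
      unfold zz
      rw [if_neg h1]
    show u x - zz u lam a b₃ c x = φ x
    rw [h2, sub_zero]
    exact hf x hx
  · obtain ⟨r, hr, hrΩ, hrl⟩ := hl x hx
    by_cases h : ‖x - c‖ < b₃
    · have hpos : 0 < min r (b₃ - ‖x - c‖) := lt_min hr (by linarith)
      refine ⟨min r (b₃ - ‖x - c‖), hpos,
        (ball_subset_ball (min_le_left _ _)).trans hrΩ, ?_⟩
      refine LipschitzOnWith.of_dist_le_mul fun y hy y' hy' => ?_
      have key : ∀ y ∈ ball x (min r (b₃ - ‖x - c‖)), ‖y - c‖ < b₃ := by
        intro y hy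
        rw [mem_ball, dist_eq_norm] at hy
        have h1 : ‖y - c‖ ≤ ‖y - x‖ + ‖x - c‖ := by
          have := norm_add_le (y - x) (x - c)
          simpa using this
        have := min_le_right r (b₃ - ‖x - c‖)
        linarith
      have e : ∀ y, ‖y - c‖ < b₃ → u y - zz u lam a b₃ c y = min (u y) (ww lam a c (u c) y) := by
        intro y hy
        unfold zz
        rw [if_pos hy]
        rcases le_total (u y) (ww lam a c (u c) y) with h1 | h1
        · rw [max_eq_right (by linarith), min_eq_left h1, sub_zero]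
        · rw [max_eq_left (by linarith), min_eq_right h1]
          ring
      show dist (u y - zz u lam a b₃ c y) (u y' - zz u lam a b₃ c y') ≤ _
      rw [e y (key y hy), e y' (key y' hy'), Real.dist_eq, NNReal.coe_one, one_mul]
      refine (abs_min_sub_min_le_max _ _ _ _).trans (max_le ?_ ?_)
      · have := hrl.dist_le_mul y (ball_subset_ball (min_le_left _ _) hy) y'
          (ball_subset_ball (min_le_left _ _) hy')
        rwa [NNReal.coe_one, one_mul, Real.dist_eq] at this
      · have := (ww_lip lam a c (u c)).dist_le_mul y y'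
        rwa [NNReal.coe_one, one_mul, Real.dist_eq] at this
    · rw [not_lt] at h
      have hpos : 0 < min r (b₃ - b₂) := lt_min hr (by linarith)
      refine ⟨min r (b₃ - b₂), hpos, (ball_subset_ball (min_le_left _ _)).trans hrΩ, ?_⟩
      have key : ∀ y ∈ ball x (min r (b₃ - b₂)), zz u lam a b₃ c y = 0 := by
        intro y hy
        by_contra hz
        have h1 := (zz_supp hul ha h23 hB y hz).2
        rw [mem_ball, dist_comm, dist_eq_norm] at hy
        have h2 : ‖x - c‖ ≤ ‖x - y‖ + ‖y - c‖ := by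
          have := norm_add_le (x - y) (y - c)
          simpa using this
        have := min_le_right r (b₃ - b₂)
        linarith
      refine LipschitzOnWith.of_dist_le_mul fun y hy y' hy' => ?_
      show dist (u y - zz u lam a b₃ c y) (u y' - zz u lam a b₃ c y') ≤ _
      rw [key y hy, key y' hy', sub_zero, sub_zero]
      exact hrl.dist_le_mul y (ball_subset_ball (min_le_left _ _) hy) y'
        (ball_subset_ball (min_le_left _ _) hy')

end main

end Pool.Agent.U562.BI
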