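import Pool.Agent.U562.BI.Key3

/-!
# Extension of light segments to the boundary
-/

set_option autoImplicit false

open MeasureTheory Metric Set Real Filter Topology
open scoped ENNReal

namespace Pool.Agent.U562.BI

variable {m : ℕ} {Ω : Set (E m)} {φ ρ u : E m → ℝ}

theorem line_light {v : E m → ℝ} {x e : E m} (he : ‖e‖ = 1) {a b : ℝ}
    (hl : LipschitzOnWith 1 v ((fun s : ℝ => x + s • e) '' Icc a b))
    (h : v (x + b • e) = v (x + a • e) + (b - a)) {s : ℝ} (hs : s ∈ Icc a b) :
    v (x + s • e) = v (x + a • e) + (s - a) := by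
  have hab : a ≤ b := hs.1.trans hs.2
  have hd : ∀ s t : ℝ, dist (x + s • e) (x + t • e) = |s - t| := by
    intro s t
    rw [dist_eq_norm]
    have : x + s • e - (x + t • e) = (s - t) • e := by
      rw [sub_smul]
      abel
    rw [this, norm_smul, he, mul_one, Real.norm_eq_abs]
  have h1 := hl.dist_le_mul _ (mem_image_of_mem _ hs) _ (mem_image_of_mem _ (left_mem_Icc.2 hab))
  have h2 := hl.dist_le_mul _ (mem_image_of_mem _ (right_mem_Icc.2 hab)) _ (mem_image_of_mem _ hs)
  rw [NNReal.coe_one, one_mul] at h1 h2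
  simp only [hd] at h1 h2
  rw [Real.dist_eq, abs_of_nonneg (by linarith [hs.1] : 0 ≤ s - a)] at h1
  rw [Real.dist_eq, abs_of_nonneg (by linarith [hs.2] : 0 ≤ b - s)] at h2
  have h3 := le_abs_self (v (x + s • e) - v (x + a • e))
  have h4 := le_abs_self (v (x + b • e) - v (x + s • e))
  linarith

theorem reach (hO : IsOpen Ω) (hb : Bornology.IsBounded Ω) (hY : InY Ω φ u)
    (hend : ∀ (c e : E m) (r : ℝ), Loc u c e r → closedBall c (2 * r) ⊆ Ω → False)
    {x e : E m} (he : ‖e‖ = 1) {L : ℝ} (hL : 0 < L)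
    (h : ∀ s ∈ Icc 0 L, x + s • e ∈ Ω ∧ u (x + s • e) = u x + s) :
    ∃ T, L ≤ T ∧ x + T • e ∈ frontier Ω ∧ (∀ s ∈ Ico 0 T, x + s • e ∈ Ω) ∧
      u (x + T • e) = u x + T := by
  set S : Set ℝ := {t | 0 ≤ t ∧ ∀ s ∈ Icc 0 t, x + s • e ∈ Ω ∧ u (x + s • e) = u x + s} with hS
  have hLS : L ∈ S := ⟨hL.le, h⟩
  have hne : S.Nonempty := ⟨L, hLS⟩
  obtain ⟨R, hR⟩ := hb.exists_norm_le
  have hbdd : BddAbove S := by
    refine ⟨R + ‖x‖, fun t ht => ?_⟩
    have h1 := hR _ (ht.2 t ⟨ht.1, le_rfl⟩).1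
    have h2 : ‖t • e‖ ≤ ‖x + t • e‖ + ‖x‖ := by
      have := norm_sub_le (x + t • e) x
      simpa using this
    rw [norm_smul, he, mul_one, Real.norm_eq_abs, abs_of_nonneg ht.1] at h2
    linarith
  set T := sSup S with hT
  have hLT : L ≤ T := le_csSup hbdd hLS
  have hT0 : 0 < T := hL.trans_le hLT
  have hlt : ∀ s ∈ Ico 0 T, x + s • e ∈ Ω ∧ u (x + s • e) = u x + s := by
    intro s hs
    obtain ⟨t, htS, hst⟩ := exists_lt_of_lt_csSup hne hs.2
    exact htS.2 s ⟨hs.1, hst.le⟩
  have hγ : Continuous fun s : ℝ => x + s • e := by fun_prop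
  have hcl : x + T • e ∈ closure Ω := by
    have h1 : T ∈ closure (Ico 0 T) := by
      rw [closure_Ico hT0.ne]
      exact right_mem_Icc.2 hT0.le
    have h2 := image_closure_subset_closure_image hγ (mem_image_of_mem _ h1)
    refine closure_mono ?_ h2
    rintro _ ⟨s, hs, rfl⟩
    exact (hlt s hs).1
  have hval : u (x + T • e) = u x + T := by
    have h1 : Tendsto (fun s : ℝ => x + s • e) (𝓝[Ico 0 T] T) (𝓝[closure Ω] (x + T • e)) := by
      refine tendsto_nhdsWithin_iff.2 ⟨(hγ.tendsto T).mono_left nhdsWithin_le_nhds, ?_⟩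
      filter_upwards [self_mem_nhdsWithin] with s hs
      exact subset_closure (hlt s hs).1
    have h2 := (hY.1 _ hcl).tendsto.comp h1
    have h3 : Tendsto (fun s : ℝ => u x + s) (𝓝[Ico 0 T] T) (𝓝 (u x + T)) :=
      ((continuous_const.add continuous_id).tendsto T).mono_left nhdsWithin_le_nhds
    have hnb : (𝓝[Ico 0 T] T).NeBot := by
      rw [← mem_closure_iff_nhdsWithin_neBot, closure_Ico hT0.ne]
      exact right_mem_Icc.2 hT0.le
    refine tendsto_nhds_unique h2 (h3.congr' ?_)
    filter_upwards [self_mem_nhdsWithin] with s hs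
    exact (hlt s hs).2.symm
  refine ⟨T, hLT, ?_, fun s hs => (hlt s hs).1, hval⟩
  rw [hO.frontier_eq]
  refine ⟨hcl, fun hTΩ => ?_⟩
  -- the end is in `Ω`
  obtain ⟨ε, hε, hball⟩ := Metric.isOpen_iff.1 hO _ hTΩ
  set r := min (T / 4) (ε / 4) with hr
  have hr0 : 0 < r := lt_min (by positivity) (by positivity)
  have hr1 : r ≤ T / 4 := min_le_left _ _
  have hr2 : r ≤ ε / 4 := min_le_right _ _
  set c := x + (T - r) • e with hc
  have hce : ∀ t : ℝ, c + t • e = x + (T - r + t) • e := by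
    intro t
    rw [hc, add_smul, add_assoc]
  have hcb : closedBall c (2 * r) ⊆ Ω := by
    intro y hy
    apply hball
    rw [mem_closedBall] at hy
    rw [mem_ball]
    have h1 : dist c (x + T • e) = r := by
      rw [hc, dist_eq_norm]
      have : x + (T - r) • e - (x + T • e) = (-r) • e := by
        rw [sub_smul, neg_smul]
        abel
      rw [this, norm_smul, he, mul_one, Real.norm_eq_abs, abs_neg, abs_of_pos hr0]
    have h2 := dist_triangle y c (x + T • e)
    linarith
  have hl : LipschitzOnWith 1 u (closedBall c (2 * r)) :=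
    lip_convex hY.2.2 (convex_closedBall _ _) hcb
  have hvalT : ∀ s, 0 ≤ s → s ≤ T → u (x + s • e) = u x + s := by
    intro s h1 h2
    rcases h2.eq_or_lt with h3 | h3
    · rw [h3, hval]
    · exact (hlt s ⟨h1, h3⟩).2
  have hcv : u c = u x + (T - r) := hvalT _ (by linarith) (by linarith)
  refine hend c e r ⟨he, hr0, hl, ?_, ?_⟩ hcb
  · intro t ht
    rw [abs_le] at ht
    rw [hce, hvalT _ (by linarith) (by linarith), hcv]
    ring
  · by_contra hcon
    rw [not_lt] at hcon
    have hd : ∀ t : ℝ, ‖c + t • e - c‖ = |t| := by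
      intro t
      rw [add_sub_cancel_left, norm_smul, he, mul_one, Real.norm_eq_abs]
    have hsub : (fun s : ℝ => c + s • e) '' Icc 0 (3 * r / 2) ⊆ closedBall c (2 * r) := by
      rintro _ ⟨s, hs, rfl⟩
      rw [mem_closedBall, dist_eq_norm]
      show ‖c + s • e - c‖ ≤ 2 * r
      rw [hd, abs_of_nonneg hs.1]
      linarith [hs.2]
    have hl2 := hl.mono hsub
    have h1 : u (c + (3 * r / 2) • e) = u (c + (0 : ℝ) • e) + (3 * r / 2 - 0) := by
      have h2 := hl.dist_le_mul (c + (3 * r / 2) • e)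
        (hsub (mem_image_of_mem _ (right_mem_Icc.2 (by positivity)))) c
        (mem_closedBall_self (by positivity))
      rw [NNReal.coe_one, one_mul, Real.dist_eq, dist_eq_norm, hd,
        abs_of_nonneg (by positivity : (0 : ℝ) ≤ 3 * r / 2)] at h2
      have h3 := le_abs_self (u (c + (3 * r / 2) • e) - u c)
      rw [zero_smul, add_zero]
      linarith
    have h2 : T + r / 2 ∈ S := by
      refine ⟨by linarith, fun s hs => ?_⟩
      rcases le_total s (T - r) with h3 | h3
      · exact hlt s ⟨hs.1, by linarith⟩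
      · have h4 : s - (T - r) ∈ Icc 0 (3 * r / 2) := ⟨by linarith, by linarith [hs.2]⟩
        have h5 := line_light he hl2 h1 h4
        have h6 : c + (s - (T - r)) • e = x + s • e := by
          rw [hce]
          congr 2
          ring
        rw [h6, zero_smul, add_zero, hcv] at h5
        refine ⟨?_, by rw [h5]; ring⟩
        apply hcb
        apply hsub
        exact ⟨s - (T - r), h4, h6⟩
    have h3 := le_csSup hbdd h2
    linarith

theorem InY.neg {v : E m → ℝ} (h : InY Ω φ v) : InY Ω (fun x => -φ x) (fun x => -v x) := by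
  refine ⟨h.1.neg, fun x hx => ?_, fun x hx => ?_⟩
  · show -v x = -φ x
    rw [h.2.1 x hx]
  obtain ⟨r, hr, hrΩ, hl⟩ := h.2.2 x hx
  refine ⟨r, hr, hrΩ, ?_⟩
  refine LipschitzOnWith.of_dist_le_mul fun y hy z hz => ?_
  rw [dist_neg_neg]
  exact hl.dist_le_mul y hy z hz

theorem energy_neg (Ω : Set (E m)) (ρ v : E m → ℝ) :
    energy Ω (fun x => -ρ x) (fun x => -v x) = energy Ω ρ v := by
  unfold energy
  have h1 : ∀ x, fderiv ℝ (fun x => -v x) x = -fderiv ℝ v x := fun x => fderiv_fun_neg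
  simp only [h1, norm_neg, neg_mul_neg]

theorem IsMinimizer.neg (h : IsMinimizer Ω φ ρ u) :
    IsMinimizer Ω (fun x => -φ x) (fun x => -ρ x) (fun x => -u x) := by
  refine ⟨h.1.neg, fun v hv => ?_⟩
  have h1 := hv.neg
  simp only [neg_neg] at h1
  have h2 := h.2 _ h1
  have h3 := energy_neg Ω ρ (fun x => -v x)
  simp only [neg_neg] at h3
  rw [energy_neg, h3]
  exact h2

theorem pathDist_le {p q : E m} (h : openSegment ℝ p q ⊆ Ω) :
    pathDist Ω p q ≤ ENNReal.ofReal (dist p q) := by
  unfold pathDist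
  refine iInf_le_of_le 0 ?_
  refine iInf_le_of_le (fun i => if i = 0 then p else q) ?_
  refine iInf_le_of_le (by simp) ?_
  refine iInf_le_of_le (by simp) ?_
  refine iInf_le_of_le (by
    intro i hi
    have : i = 0 := Nat.le_zero.1 hi
    subst this
    simpa using h) ?_
  refine iInf_le_of_le (by
    intro i hi
    exact absurd hi (Nat.not_lt_zero i)) ?_
  simp

end Pool.Agent.U562.BI
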