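import Pool.Agent.U562.BI.Ineq

/-!
# Pointwise estimates near the end of a light segment
-/

set_option autoImplicit false

open MeasureTheory Metric Set Real Filter Topology
open scoped ENNReal

namespace Pool.Agent.U562.BI

variable {m : ℕ}

/-- The local situation: `u` is `1`-Lipschitz on the ball of radius `2r` around `c`, equal to
`u(c) + t` at `c + t e` for `|t| ≤ r`, and smaller than `u(c) + 3r/2` at `c + (3r/2) e`. -/
structure Loc (u : E m → ℝ) (c e : E m) (r : ℝ) : Prop where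
  he : ‖e‖ = 1
  hr : 0 < r
  hl : LipschitzOnWith 1 u (closedBall c (2 * r))
  light : ∀ t : ℝ, |t| ≤ r → u (c + t • e) = u c + t
  last : u (c + (3 * r / 2) • e) < u c + 3 * r / 2

/-- The constant `C₁ = (2r)^(2m+1)/2`. -/
noncomputable def C1 (m : ℕ) (r : ℝ) : ℝ := (2 * r) ^ (2 * m + 1) / 2

theorem C1_pos (m : ℕ) {r : ℝ} (hr : 0 < r) : 0 < C1 m r := by
  unfold C1
  positivity

variable {u : E m → ℝ} {c e : E m} {r lam : ℝ}

namespace Loc

variable (H : Loc u c e r)
include H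

theorem mem_ball {t : ℝ} (ht : |t| ≤ 2 * r) : c + t • e ∈ closedBall c (2 * r) := by
  rw [mem_closedBall, dist_eq_norm, add_sub_cancel_left, norm_smul, H.he, mul_one,
    Real.norm_eq_abs]
  exact ht

theorem dist_le {x y : E m} (hx : ‖x - c‖ ≤ 2 * r) (hy : ‖y - c‖ ≤ 2 * r) :
    |u x - u y| ≤ ‖x - y‖ := by
  have := H.hl.dist_le_mul x (by rw [mem_closedBall, dist_eq_norm]; exact hx) y
    (by rw [mem_closedBall, dist_eq_norm]; exact hy)
  rwa [NNReal.coe_one, one_mul, Real.dist_eq, dist_eq_norm] at this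

theorem norm_line (t : ℝ) : ‖c + t • e - c‖ = |t| := by
  rw [add_sub_cancel_left, norm_smul, H.he, mul_one, Real.norm_eq_abs]

/-- The upper bound by the cone with vertex `c - r e`. -/
theorem upper {x : E m} (hx : ‖x - c‖ ≤ 2 * r) :
    u x - u c ≤ ‖x - c‖ - r * (‖x - c‖ - inner ℝ (x - c) e) / (‖x - c‖ + r) := by
  have hr := H.hr
  have h1 : |(-r : ℝ)| ≤ r := by rw [abs_neg, abs_of_pos hr]
  have h2 := H.light (-r) h1
  have h3 := H.dist_le hx (y := c + (-r) • e) (by
    rw [H.norm_line]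
    linarith)
  have h4 : x - (c + (-r) • e) = (x - c) + r • e := by
    rw [neg_smul]
    abel
  rw [h2, h4] at h3
  have h5 := cone_upper (h := x - c) H.he hr
  have h6 := le_abs_self (u x - (u c + -r))
  linarith

theorem kappa_pos : 0 < u c + 3 * r / 2 - u (c + (3 * r / 2) • e) := by
  have := H.last
  linarith

/-- Beyond the end `u` is smaller than `u(c) + t` by a fixed amount. -/
theorem beyond {t : ℝ} (h1 : 3 * r / 2 ≤ t) (h2 : t ≤ 2 * r) :
    u (c + t • e) ≤ u c + t - (u c + 3 * r / 2 - u (c + (3 * r / 2) • e)) := by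
  have hr := H.hr
  have h3 := H.dist_le (x := c + t • e) (y := c + (3 * r / 2) • e)
    (by rw [H.norm_line, abs_of_nonneg (by linarith)]; exact h2)
    (by rw [H.norm_line, abs_of_nonneg (by linarith)]; linarith)
  have h4 : c + t • e - (c + (3 * r / 2) • e) = (t - 3 * r / 2) • e := by
    rw [sub_smul]
    abel
  rw [h4, norm_smul, H.he, mul_one, Real.norm_eq_abs, abs_of_nonneg (by linarith : 0 ≤ t - 3 * r / 2)] at h3
  have := le_abs_self (u (c + t • e) - u (c + (3 * r / 2) • e))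
  linarith

theorem inner_le (x : E m) : inner ℝ (x - c) e ≤ ‖x - c‖ := by
  have := real_inner_le_norm (x - c) e
  rwa [H.he, mul_one] at this

/-- Where `u` exceeds the comparison function, `x` is close to the axis. -/
theorem close {x : E m} (hlam : 0 < lam) (h1 : r / 2 ≤ ‖x - c‖) (h2 : ‖x - c‖ ≤ 2 * r)
    (h3 : ww lam (r / 2) c (u c) x < u x) :
    ‖(x - c) - ‖x - c‖ • e‖ ^ 2 ≤ 12 * r * C1 m r / lam ^ 2 := by
  have hr := H.hr
  have h4 := H.upper h2
  have h5 := psi_lower (m := m) (lam := lam) (a := r / 2) (b := 2 * r) (by positivity) h1 h2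
  unfold ww at h3
  have h6 : (2 * r) ^ (2 * m + 1) / (2 * lam ^ 2) = C1 m r / lam ^ 2 := by
    unfold C1
    field_simp
  rw [h6] at h5
  have h7 := H.inner_le x
  set R := ‖x - c‖ with hR
  set τ := inner ℝ (x - c) e with hτ
  have hRr : 0 < R + r := by linarith
  have h8 : r * (R - τ) / (R + r) < C1 m r / lam ^ 2 := by linarith
  rw [div_lt_div_iff₀ hRr (by positivity)] at h8
  rw [norm_sub_ray H.he, ← hR, ← hτ, le_div_iff₀ (by positivity)]
  have hC := C1_pos m hr
  have h9 : 2 * R * (R - τ) * lam ^ 2 * r ≤ 12 * r * C1 m r * r := by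
    have h10 : r * (R - τ) * lam ^ 2 ≤ C1 m r * (3 * r) := by
      have : C1 m r * (R + r) ≤ C1 m r * (3 * r) := by
        gcongr
        linarith
      linarith
    calc 2 * R * (R - τ) * lam ^ 2 * r = 2 * R * (r * (R - τ) * lam ^ 2) := by ring
      _ ≤ 2 * R * (C1 m r * (3 * r)) := by
        have : 0 ≤ 2 * R := by linarith
        gcongr
      _ ≤ 2 * (2 * r) * (C1 m r * (3 * r)) := by gcongr
      _ = 12 * r * C1 m r * r := by ring
  exact le_of_mul_le_mul_right h9 hr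

theorem diff_le {x : E m} (hlam : 0 < lam) (h1 : r / 2 ≤ ‖x - c‖) (h2 : ‖x - c‖ ≤ 2 * r) :
    u x - ww lam (r / 2) c (u c) x ≤ C1 m r / lam ^ 2 := by
  have hr := H.hr
  have h4 := H.dist_le h2 (y := c) (by
    rw [sub_self, norm_zero]
    linarith)
  have h5 := psi_lower (m := m) (lam := lam) (a := r / 2) (b := 2 * r) (by positivity) h1 h2
  have h6 : (2 * r) ^ (2 * m + 1) / (2 * lam ^ 2) = C1 m r / lam ^ 2 := by
    unfold C1
    field_simp
  rw [h6] at h5
  have h7 := le_abs_self (u x - u c)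
  unfold ww
  linarith

/-- The comparison function is above `u` beyond the end of the light segment. -/
theorem above {κ : ℝ} (hκ : κ = u c + 3 * r / 2 - u (c + (3 * r / 2) • e)) (hlam : 0 < lam)
    (hl1 : 48 * r * C1 m r / lam ^ 2 ≤ κ ^ 2) (hl2 : 2 * C1 m r / lam ^ 2 ≤ κ)
    {x : E m} (h1 : 3 * r / 2 ≤ ‖x - c‖) (h2 : ‖x - c‖ ≤ 2 * r) :
    u x ≤ ww lam (r / 2) c (u c) x := by
  have hr := H.hr
  by_contra h3
  rw [not_le] at h3
  have h4 := H.close hlam (by linarith) h2 h3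
  have hκ0 : 0 < κ := by
    rw [hκ]
    exact H.kappa_pos
  have h5 : ‖(x - c) - ‖x - c‖ • e‖ ≤ κ / 2 := by
    refine abs_le_of_sq_le_sq' ?_ (by positivity) |>.2
    have : 12 * r * C1 m r / lam ^ 2 = (48 * r * C1 m r / lam ^ 2) / 4 := by ring
    rw [this] at h4
    nlinarith
  have h6 := H.beyond h1 h2
  rw [← hκ] at h6
  have h7 := H.dist_le h2 (y := c + ‖x - c‖ • e) (by
    rw [H.norm_line, abs_norm]
    exact h2)
  have h8 : x - (c + ‖x - c‖ • e) = (x - c) - ‖x - c‖ • e := by abel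
  rw [h8] at h7
  have h9 := le_abs_self (u x - u (c + ‖x - c‖ • e))
  have h10 := psi_lower (m := m) (lam := lam) (a := r / 2) (b := 2 * r) (by positivity)
    (by linarith : r / 2 ≤ ‖x - c‖) h2
  have h11 : (2 * r) ^ (2 * m + 1) / (2 * lam ^ 2) = C1 m r / lam ^ 2 := by
    unfold C1
    field_simp
  rw [h11] at h10
  have h12 : 2 * C1 m r / lam ^ 2 = 2 * (C1 m r / lam ^ 2) := by ring
  rw [h12] at hl2
  unfold ww at h3
  linarith

/-- Near the axis, inside the light segment, `u` exceeds the comparison function. -/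
theorem lower {δ : ℝ} (hlam : 0 < lam) (hb : (2 * r) ^ (2 * m) ≤ lam ^ 2) (hδ : 0 < δ)
    (hδr : δ ≤ r / 20)
    (hδ2 : 5 * δ ^ 2 / r ≤ (r / 20) * (r / 2) ^ (2 * m) / (8 * lam ^ 2)) {t : ℝ}
    (ht1 : 3 * r / 5 ≤ t) (ht2 : t ≤ 4 * r / 5) {x : E m} (hx : x ∈ ball (c + t • e) δ) :
    ‖x - c‖ < 2 * r ∧ (r / 20) * (r / 2) ^ (2 * m) / (8 * lam ^ 2)
      ≤ u x - ww lam (r / 2) c (u c) x := by
  have hr := H.hr
  rw [Metric.mem_ball, dist_eq_norm] at hx
  have h1 : x - (c + t • e) = (x - c) - t • e := by abel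
  rw [h1] at hx
  set h := x - c with hh
  set τ := inner ℝ h e with hτ
  have hee : inner ℝ e e = (1 : ℝ) := by rw [real_inner_self_eq_norm_sq, H.he]; norm_num
  have h2 : |τ - t| ≤ ‖h - t • e‖ := by
    have h3 := abs_real_inner_le_norm (h - t • e) e
    rw [H.he, mul_one, inner_sub_left, inner_smul_left, hee] at h3
    simpa using h3
  have h3 : ‖h - t • e‖ ^ 2 = (‖h‖ ^ 2 - τ ^ 2) + (τ - t) ^ 2 := by
    rw [norm_sub_sq_real, inner_smul_right, norm_smul, H.he, mul_one, Real.norm_eq_abs, sq_abs]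
    ring
  have h4 := abs_lt.1 (lt_of_le_of_lt h2 hx)
  have h5 : ‖h‖ ^ 2 - τ ^ 2 ≤ δ ^ 2 := by
    have h6 : ‖h - t • e‖ ^ 2 ≤ δ ^ 2 := by
      have := norm_nonneg (h - t • e)
      gcongr
    have := sq_nonneg (τ - t)
    linarith
  have hτ1 : 11 * r / 20 ≤ τ := by linarith
  have hτ2 : τ ≤ 17 * r / 20 := by linarith
  have hR1 : τ ≤ ‖h‖ := H.inner_le x
  have hR2 : ‖h‖ < 2 * r := by
    have h6 : ‖h‖ ≤ ‖h - t • e‖ + ‖t • e‖ := by
      have := norm_add_le (h - t • e) (t • e)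
      simpa using this
    rw [norm_smul, H.he, mul_one, Real.norm_eq_abs, abs_of_pos (by linarith : 0 < t)] at h6
    linarith
  refine ⟨hR2, ?_⟩
  -- lower bound of `u`
  have hB := H.light r (abs_of_pos hr).le
  have h6 := H.dist_le (x := x) (y := c + r • e) hR2.le (by
    rw [H.norm_line, abs_of_pos hr]
    linarith)
  have h7 : x - (c + r • e) = h - r • e := by
    rw [hh]
    abel
  rw [h7, hB] at h6
  have h8 := lower_cone (h := h) (b := r) H.he (by rw [← hτ]; linarith)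
  rw [← hτ] at h8
  have h9 : (‖h‖ ^ 2 - τ ^ 2) / (2 * (r - τ)) ≤ δ ^ 2 / (2 * (3 * r / 20)) := by
    have : 0 ≤ δ ^ 2 := by positivity
    gcongr
    linarith
  have h10 := (abs_le.1 h6).1
  -- upper bound of the comparison function
  have h11 := norm_le_axis (h := h) H.he (by rw [← hτ]; linarith)
  rw [← hτ] at h11
  have h12 : (‖h‖ ^ 2 - τ ^ 2) / (2 * τ) ≤ δ ^ 2 / (2 * (11 * r / 20)) := by
    have : 0 ≤ δ ^ 2 := by positivity
    gcongr
  have h13 := psi_upper (m := m) (lam := lam) (a := r / 2) (t := 11 * r / 20) (R := ‖h‖)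
    (by positivity) (by linarith) (by linarith) hlam (by
      refine le_trans ?_ hb
      gcongr)
  have h14 : (11 * r / 20 - r / 2) * (r / 2) ^ (2 * m) / (4 * lam ^ 2)
      = 2 * ((r / 20) * (r / 2) ^ (2 * m) / (8 * lam ^ 2)) := by ring
  rw [h14] at h13
  have h15 : δ ^ 2 / (2 * (3 * r / 20)) + δ ^ 2 / (2 * (11 * r / 20)) ≤ 5 * δ ^ 2 / r := by
    have : δ ^ 2 / (2 * (3 * r / 20)) + δ ^ 2 / (2 * (11 * r / 20)) = (140 / 33) * (δ ^ 2 / r) := by
      field_simp
      ring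
    rw [this, mul_div_assoc]
    have : 0 ≤ δ ^ 2 / r := by positivity
    nlinarith
  unfold ww
  rw [← hh]
  linarith

end Loc

end Pool.Agent.U562.BI
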