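import Pool.Agent.U562.BI.Energy

/-!
# The inequality `λ ∫ |x-c|^(-m-1) z ≤ ∫ ρ z`
-/

set_option autoImplicit false

open MeasureTheory Metric Set Real Filter Topology
open scoped ENNReal

namespace Pool.Agent.U562.BI

variable {m : ℕ} {Ω : Set (E m)} {φ ρ u : E m → ℝ} {c : E m} {lam a b₂ b₃ : ℝ}

/-- The integrand of the Born-Infeld energy is integrable. -/
theorem integrable_bi (hO : IsOpen Ω) (hb : Bornology.IsBounded Ω) (v : E m → ℝ) :
    IntegrableOn (fun x => 1 - √(1 - ‖fderiv ℝ v x‖ ^ 2)) Ω := by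
  have hfin : volume Ω ≠ ∞ := hb.measure_lt_top.ne
  have h1 : IntegrableOn (fun _ : E m => (1 : ℝ)) Ω := integrableOn_const hfin
  refine Integrable.mono' h1 ?_ (Eventually.of_forall fun x => ?_)
  · have h2 : Measurable fun x => ‖fderiv ℝ v x‖ := (measurable_fderiv ℝ v).norm
    have h3 : Measurable fun x => 1 - √(1 - ‖fderiv ℝ v x‖ ^ 2) :=
      measurable_const.sub (Real.continuous_sqrt.measurable.comp
        (measurable_const.sub (h2.pow_const 2)))
    exact h3.aestronglyMeasurable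
  · have h2 : 0 ≤ √(1 - ‖fderiv ℝ v x‖ ^ 2) := Real.sqrt_nonneg _
    have h3 : √(1 - ‖fderiv ℝ v x‖ ^ 2) ≤ 1 := by
      refine Real.sqrt_le_iff.2 ⟨zero_le_one, ?_⟩
      have := sq_nonneg ‖fderiv ℝ v x‖
      linarith
    rw [Real.norm_eq_abs, abs_le]
    constructor <;> linarith

theorem integrable_rho (hO : IsOpen Ω) (hb : Bornology.IsBounded Ω) {v : E m → ℝ}
    (hv : ContinuousOn v (closure Ω)) (hρ : IntegrableOn ρ Ω) :
    IntegrableOn (fun x => ρ x * v x) Ω := by
  have hc : IsCompact (closure Ω) := hb.isCompact_closure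
  obtain ⟨C, hC⟩ := hc.exists_bound_of_continuousOn hv
  have h1 : AEStronglyMeasurable v (volume.restrict Ω) :=
    (hv.mono subset_closure).aestronglyMeasurable hO.measurableSet
  refine Integrable.mono' (hρ.norm.mul_const C) (hρ.aestronglyMeasurable.mul h1) ?_
  filter_upwards [ae_restrict_mem hO.measurableSet] with x hx
  rw [norm_mul]
  exact mul_le_mul_of_nonneg_left (hC x (subset_closure hx)) (norm_nonneg _)

theorem main_ineq (hO : IsOpen Ω) (hb : Bornology.IsBounded Ω) (hρ : IntegrableOn ρ Ω)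
    (hu : IsMinimizer Ω φ ρ u) (hball : closedBall c b₃ ⊆ Ω) (ha : 0 < a)
    (hb2 : 0 ≤ b₂) (h23 : b₂ < b₃) (hlam : 0 < lam)
    (hB : ∀ x, b₂ ≤ ‖x - c‖ → ‖x - c‖ ≤ b₃ → u x ≤ ww lam a c (u c) x) :
    ∫ x, lam / ‖x - c‖ ^ (m + 1) * zz u lam a b₃ c x ≤ ∫ x in Ω, ρ x * zz u lam a b₃ c x := by
  obtain ⟨hY, hmin⟩ := hu
  have hul : LipschitzOnWith 1 u (closedBall c b₃) :=
    lip_convex hY.2.2 (convex_closedBall _ _) hball
  obtain ⟨C, hC⟩ := zz_lip hul ha h23 hB
  set z := zz u lam a b₃ c with hz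
  set v : E m → ℝ := fun x => u x - z x with hv
  have hYv : InY Ω φ v := competitor hO hY hball ha h23 hB
  have hE := hmin v hYv
  have hsupp : ∀ x, z x ≠ 0 → a ≤ ‖x - c‖ ∧ ‖x - c‖ ≤ b₂ := fun x hx =>
    zz_supp hul ha h23 hB x hx
  obtain ⟨iX, eX⟩ := ibp (lam := lam) hC ha hb2 hsupp
  rw [← eX]
  -- the energy inequality
  have i1 := integrable_bi hO hb u
  have i2 := integrable_bi hO hb v
  have i3 := integrable_rho hO hb hY.1 hρ
  have i4 := integrable_rho hO hb hYv.1 hρ
  have e1 : ∫ x in Ω, ρ x * z x = (∫ x in Ω, ρ x * u x) - ∫ x in Ω, ρ x * v x := by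
    rw [← integral_sub i3 i4]
    congr 1
    funext x
    simp only [hv]
    ring
  have e2 : (∫ x in Ω, (1 - √(1 - ‖fderiv ℝ u x‖ ^ 2))) - ∫ x in Ω, (1 - √(1 - ‖fderiv ℝ v x‖ ^ 2))
      = ∫ x in Ω, (√(1 - ‖fderiv ℝ v x‖ ^ 2) - √(1 - ‖fderiv ℝ u x‖ ^ 2)) := by
    rw [← integral_sub i1 i2]
    congr 1
    funext x
    ring
  have i5 : IntegrableOn (fun x => √(1 - ‖fderiv ℝ v x‖ ^ 2) - √(1 - ‖fderiv ℝ u x‖ ^ 2)) Ω := by
    refine (i1.sub i2).congr (Eventually.of_forall fun x => ?_)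
    simp only [Pi.sub_apply]
    ring
  have hE' : ∫ x in Ω, (√(1 - ‖fderiv ℝ v x‖ ^ 2) - √(1 - ‖fderiv ℝ u x‖ ^ 2))
      ≤ ∫ x in Ω, ρ x * z x := by
    rw [e1, ← e2]
    unfold energy at hE
    linarith
  refine le_trans ?_ hE'
  -- reduce to an inequality on `Ω`
  have hfar : ∀ x, b₂ < ‖x - c‖ → z =ᶠ[𝓝 x] fun _ => 0 := by
    intro x hx
    have hc1 : Continuous fun y : E m => ‖y - c‖ := by fun_prop
    filter_upwards [hc1.continuousAt.eventually (lt_mem_nhds hx)] with y hy
    by_contra h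
    exact absurd (hsupp y h).2 (not_le.2 hy)
  have hout : ∀ x, x ∉ Ω → fderiv ℝ z x ((lam / ‖x - c‖ ^ (m + 1)) • (x - c)) = 0 := by
    intro x hx
    have h1 : b₂ < ‖x - c‖ := by
      by_contra h
      rw [not_lt] at h
      apply hx
      apply hball
      rw [mem_closedBall, dist_eq_norm]
      linarith
    rw [(hfar x h1).fderiv_eq]
    simp
  rw [← setIntegral_eq_integral_of_forall_compl_eq_zero hout]
  refine setIntegral_mono_ae_restrict iX.integrableOn i5 ?_
  have hdz : ∀ᵐ x, DifferentiableAt ℝ z x := hC.ae_differentiableAt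
  have hdu : ∀ᵐ x, x ∈ closedBall c b₃ → DifferentiableWithinAt ℝ u (closedBall c b₃) x :=
    hul.ae_differentiableWithinAt_of_mem
  filter_upwards [ae_restrict_of_ae hdz, ae_restrict_of_ae hdu] with x hx1 hx2
  rcases lt_or_ge b₂ ‖x - c‖ with h | h
  · have h1 := hfar x h
    have h2 : v =ᶠ[𝓝 x] u := by
      filter_upwards [h1] with y hy
      simp [hv, hy]
    rw [h1.fderiv_eq, h2.fderiv_eq]
    simp
  · have hxb : ‖x - c‖ < b₃ := by linarith
    have hnb : closedBall c b₃ ∈ 𝓝 x := by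
      apply closedBall_mem_nhds_of_mem
      rw [mem_ball, dist_eq_norm]
      exact hxb
    have hux : DifferentiableAt ℝ u x := (hx2 (by
      rw [mem_closedBall, dist_eq_norm]
      exact hxb.le)).differentiableAt hnb
    have hnu : ‖fderiv ℝ u x‖ ≤ 1 := by
      have := norm_fderiv_le_of_lipschitzOn ℝ hnb hul
      simpa using this
    have hfv : fderiv ℝ v x = fderiv ℝ u x - fderiv ℝ z x := by
      exact fderiv_fun_sub hux hx1
    by_cases hz0 : z x = 0
    · have h1 : IsLocalMin z x := by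
        refine Eventually.of_forall fun y => ?_
        rw [hz0]
        exact zz_nonneg u lam a b₃ c y
      have h2 := h1.fderiv_eq_zero
      rw [hfv, h2]
      simp
    · have hxa := (hsupp x hz0).1
      have hxc : x ≠ c := by
        intro h1
        rw [h1, sub_self, norm_zero] at hxa
        linarith
      have hw := ww_fderiv (lam := lam) (a := a) (k := u c) hxc
      have hzpos : 0 < z x := lt_of_le_of_ne (zz_nonneg u lam a b₃ c x) (Ne.symm hz0)
      have h1 : v =ᶠ[𝓝 x] ww lam a c (u c) := by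
        have hc1 : Continuous fun y : E m => ‖y - c‖ := by fun_prop
        filter_upwards [hC.continuous.continuousAt.eventually (lt_mem_nhds hzpos),
          hc1.continuousAt.eventually (gt_mem_nhds hxb)] with y hy1 hy2
        have hy1' : 0 < zz u lam a b₃ c y := hy1
        have hy2' : ‖y - c‖ < b₃ := hy2
        show u y - zz u lam a b₃ c y = _
        unfold zz at hy1' ⊢
        rw [if_pos hy2'] at hy1' ⊢
        rcases le_total (u y - ww lam a c (u c) y) 0 with h3 | h3
        · rw [max_eq_right h3] at hy1'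
          exact absurd hy1' (lt_irrefl 0)
        · rw [max_eq_left h3]
          ring
      have h2 : fderiv ℝ v x = fderiv ℝ (ww lam a c (u c)) x := h1.fderiv_eq
      have h3 : fderiv ℝ z x = fderiv ℝ u x - fderiv ℝ (ww lam a c (u c)) x := by
        rw [← h2, hfv]
        abel
      rw [h3, h2]
      have h4 := ww_dual (a := a) (k := u c) hlam hxc
      have h5 := dual_ineq hnu ((lam / ‖x - c‖ ^ (m + 1)) • (x - c))
      rw [ContinuousLinearMap.sub_apply]
      linarith

end Pool.Agent.U562.BI
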