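import Pool.Agent.U562.BI.Geo

/-!
# A light segment cannot end in the interior
-/

set_option autoImplicit false

open MeasureTheory Metric Set Real Filter Topology
open scoped ENNReal

namespace Pool.Agent.U562.BI

variable {m : ℕ} {u : E m → ℝ} {c e : E m} {r lam : ℝ}

/-- The volume of the unit ball. -/
noncomputable def om (m : ℕ) : ℝ := (volume : Measure (E m)).real (ball 0 1)

theorem om_pos (m : ℕ) : 0 < om m := by
  unfold om
  rw [measureReal_def, ENNReal.toReal_pos_iff]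
  exact ⟨Metric.measure_ball_pos _ _ one_pos, measure_ball_lt_top⟩

theorem vol_ball [Nontrivial (E m)] (x : E m) {δ : ℝ} (hδ : 0 ≤ δ) :
    (volume : Measure (E m)).real (ball x δ) = δ ^ m * om m := by
  rw [measureReal_def, Measure.addHaar_ball (volume : Measure (E m)) x hδ, ENNReal.toReal_mul,
    ENNReal.toReal_ofReal (by positivity), finrank_euclideanSpace_fin]
  rfl

theorem vol_cball (x : E m) {δ : ℝ} (hδ : 0 ≤ δ) :
    (volume : Measure (E m)).real (closedBall x δ) = δ ^ m * om m := by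
  have := Measure.addHaar_real_closedBall (volume : Measure (E m)) x hδ
  rwa [finrank_euclideanSpace_fin] at this

/-- The thin tube around the axis. -/
def tube (c e : E m) (r δ : ℝ) : Set (E m) :=
  (⋃ k ∈ Finset.range (⌊2 * r / δ⌋₊ + 1), closedBall (c + ((k : ℝ) * δ) • e) (2 * δ)) ∩
    closedBall c (2 * r)

theorem tube_meas (c e : E m) (r δ : ℝ) : MeasurableSet (tube c e r δ) :=
  (Finset.measurableSet_biUnion _ fun _ _ => measurableSet_closedBall).inter
    measurableSet_closedBall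

theorem tube_vol {δ : ℝ} (hr : 0 < r) (hδ : 0 < δ) (hδr : δ ≤ 2 * r) :
    (volume : Measure (E m)).real (tube c e r δ) ≤ 4 * r / δ * ((2 * δ) ^ m * om m) := by
  have h1 : (volume : Measure (E m)).real (tube c e r δ)
      ≤ (volume : Measure (E m)).real
        (⋃ k ∈ Finset.range (⌊2 * r / δ⌋₊ + 1), closedBall (c + ((k : ℝ) * δ) • e) (2 * δ)) := by
    refine measureReal_mono inter_subset_left ?_
    refine ne_of_lt ((measure_biUnion_finset_le _ _).trans_lt ?_)
    refine ENNReal.sum_lt_top.2 fun k _ => measure_closedBall_lt_top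
  refine h1.trans ((measureReal_biUnion_finset_le _ _).trans ?_)
  rw [Finset.sum_congr rfl fun (k : ℕ) _ =>
      vol_cball (c + ((k : ℝ) * δ) • e) (by positivity : 0 ≤ 2 * δ),
    Finset.sum_const, Finset.card_range, nsmul_eq_mul]
  have h2 : ((⌊2 * r / δ⌋₊ + 1 : ℕ) : ℝ) ≤ 4 * r / δ := by
    push_cast
    have h3 := Nat.floor_le (by positivity : 0 ≤ 2 * r / δ)
    have h4 : 1 ≤ 2 * r / δ := by
      rw [le_div_iff₀ hδ]
      linarith
    have h5 : 4 * r / δ = 2 * r / δ + 2 * r / δ := by ring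
    linarith
  have h3 : 0 ≤ (2 * δ) ^ m * om m := by
    have := om_pos m
    positivity
  exact mul_le_mul_of_nonneg_right h2 h3

theorem mem_tube (he : ‖e‖ = 1) {δ : ℝ} (hδ : 0 < δ) {x : E m} (h2 : ‖x - c‖ ≤ 2 * r)
    (hx : ‖(x - c) - ‖x - c‖ • e‖ ≤ δ) : x ∈ tube c e r δ := by
  refine ⟨?_, by rw [mem_closedBall, dist_eq_norm]; exact h2⟩
  rw [mem_iUnion₂]
  refine ⟨⌊‖x - c‖ / δ⌋₊, ?_, ?_⟩
  · rw [Finset.mem_range, Nat.lt_add_one_iff]
    apply Nat.floor_le_floor
    gcongr
  · rw [mem_closedBall, dist_eq_norm]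
    set k : ℝ := (⌊‖x - c‖ / δ⌋₊ : ℝ) with hk
    have h3 : x - (c + (k * δ) • e) = ((x - c) - ‖x - c‖ • e) + (‖x - c‖ - k * δ) • e := by
      rw [sub_smul]
      abel
    rw [h3]
    refine (norm_add_le _ _).trans ?_
    rw [norm_smul, he, mul_one, Real.norm_eq_abs]
    have h4 : k ≤ ‖x - c‖ / δ := Nat.floor_le (by positivity)
    have h5 : ‖x - c‖ / δ < k + 1 := Nat.lt_floor_add_one _
    rw [le_div_iff₀ hδ] at h4
    rw [div_lt_iff₀ hδ] at h5
    have h6 : |‖x - c‖ - k * δ| ≤ δ := by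
      rw [abs_le]
      constructor <;> nlinarith
    linarith

/-- Lower bound for the integral of a nonnegative function which is at least `K` on many disjoint
balls. -/
theorem integral_lower [Nontrivial (E m)] {z : E m → ℝ} (hz : Integrable z) (hz0 : ∀ x, 0 ≤ z x) (he : ‖e‖ = 1)
    {K δ t₀ : ℝ} (hK : 0 ≤ K) (hδ : 0 < δ) (N : ℕ)
    (hb : ∀ j : ℕ, j ≤ N → ∀ x ∈ ball (c + (t₀ + 2 * j * δ) • e) δ, K ≤ z x) :
    K * ((N + 1) * (δ ^ m * om m)) ≤ ∫ x, z x := by
  have h1 := mul_meas_ge_le_integral_of_nonneg (Eventually.of_forall hz0) hz K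
  refine le_trans ?_ h1
  rcases hK.eq_or_lt with h0 | hK0
  · rw [← h0]
    simp
  refine mul_le_mul_of_nonneg_left ?_ hK
  have h2 : (⋃ j ∈ Finset.range (N + 1), ball (c + (t₀ + 2 * (j : ℝ) * δ) • e) δ)
      ⊆ {x | K ≤ z x} := by
    intro x hx
    rw [mem_iUnion₂] at hx
    obtain ⟨j, hj, hx⟩ := hx
    rw [Finset.mem_range, Nat.lt_add_one_iff] at hj
    exact hb j hj x hx
  have hfin : (volume : Measure (E m)) {x | K ≤ z x} ≠ ∞ := by
    have := hz.measure_norm_ge_lt_top hK0
    refine ne_of_lt (lt_of_le_of_lt (measure_mono ?_) this)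
    intro x hx
    have hx' : K ≤ z x := hx
    show K ≤ ‖z x‖
    exact hx'.trans (le_abs_self _)
  have h3 := measureReal_mono h2 hfin
  rw [measureReal_biUnion_finset ?_ fun j _ => measurableSet_ball,
    Finset.sum_congr rfl fun (j : ℕ) _ => vol_ball (c + (t₀ + 2 * (j : ℝ) * δ) • e) hδ.le,
    Finset.sum_const, Finset.card_range, nsmul_eq_mul] at h3
  · push_cast at h3
    exact h3
  · intro i _ j _ hij
    apply ball_disjoint_ball
    rw [dist_eq_norm]
    have h4 : c + (t₀ + 2 * (i : ℝ) * δ) • e - (c + (t₀ + 2 * (j : ℝ) * δ) • e)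
        = (2 * δ * ((i : ℝ) - j)) • e := by
      have : (2 * δ * ((i : ℝ) - j)) = (t₀ + 2 * (i : ℝ) * δ) - (t₀ + 2 * (j : ℝ) * δ) := by ring
      rw [this, sub_smul]
      abel
    rw [h4, norm_smul, he, mul_one, Real.norm_eq_abs, abs_mul, abs_of_pos (by positivity : 0 < 2 * δ)]
    have h5 : (1 : ℝ) ≤ |(i : ℝ) - j| := by
      have h6 : ((i : ℤ) - j) ≠ 0 := by
        intro h
        apply hij
        exact_mod_cast sub_eq_zero.1 h
      have h7 := Int.one_le_abs h6
      exact_mod_cast h7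
    nlinarith

/-- Splitting `ρ` at a height. -/
theorem rho_split {n : ℕ} {K s : ℝ} (hK : 0 < K) :
    |s| ≤ K + |s| ^ (n + 1) / K ^ n := by
  rcases le_total |s| K with h | h
  · have : 0 ≤ |s| ^ (n + 1) / K ^ n := by positivity
    linarith
  · have h1 : |s| * K ^ n ≤ |s| ^ (n + 1) := by
      rw [pow_succ']
      have := abs_nonneg s
      gcongr
    have h2 : |s| ≤ |s| ^ (n + 1) / K ^ n := by
      rw [le_div_iff₀ (by positivity)]
      exact h1
    linarith

end Pool.Agent.U562.BI
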