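import Pool.Agent.U562.BI.Key

/-!
# A light segment cannot end in the interior: the quantitative inequality
-/

set_option autoImplicit false

open MeasureTheory Metric Set Real Filter Topology
open scoped ENNReal

namespace Pool.Agent.U562.BI

variable {m : ℕ} {Ω : Set (E m)} {φ ρ u : E m → ℝ} {c e : E m} {r lam : ℝ}

theorem key_ineq [Nontrivial (E m)] (hO : IsOpen Ω) (hb : Bornology.IsBounded Ω)
    (hρ : IntegrableOn ρ Ω) (hu : IsMinimizer Ω φ ρ u) (H : Loc u c e r)
    (hball : closedBall c (2 * r) ⊆ Ω) {κ : ℝ} (hκ : κ = u c + 3 * r / 2 - u (c + (3 * r / 2) • e))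
    {δ δ' : ℝ} (hlam : 0 < lam)
    (hl1 : 48 * r * C1 m r / lam ^ 2 ≤ κ ^ 2) (hl2 : 2 * C1 m r / lam ^ 2 ≤ κ)
    (hl3 : (2 * r) ^ (2 * m) ≤ lam ^ 2) (hδ : 0 < δ) (hδr : δ ≤ r / 20)
    (hδ2 : 5 * δ ^ 2 / r ≤ (r / 20) * (r / 2) ^ (2 * m) / (8 * lam ^ 2))
    (hδ' : 0 < δ') (hδ'2 : 12 * r * C1 m r / lam ^ 2 ≤ δ' ^ 2) :
    lam / (2 * r) ^ (m + 1) * ((r / 20) * (r / 2) ^ (2 * m) / (8 * lam ^ 2) *
      (r / (10 * δ) * (δ ^ m * om m))) ≤ C1 m r / lam ^ 2 * ∫ x in tube c e r δ', |ρ x| := by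
  have hr := H.hr
  have hul : LipschitzOnWith 1 u (closedBall c (2 * r)) := H.hl
  have hB : ∀ x, 3 * r / 2 ≤ ‖x - c‖ → ‖x - c‖ ≤ 2 * r → u x ≤ ww lam (r / 2) c (u c) x :=
    fun x h1 h2 => H.above hκ hlam hl1 hl2 h1 h2
  have ha : 0 < r / 2 := by positivity
  have h23 : 3 * r / 2 < 2 * r := by linarith
  have hmain := main_ineq (lam := lam) (a := r / 2) (b₂ := 3 * r / 2) (b₃ := 2 * r)
    hO hb hρ hu hball ha (by positivity) h23 hlam hB
  obtain ⟨C, hC⟩ := zz_lip hul ha h23 hB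
  have hsupp : ∀ x, zz u lam (r / 2) (2 * r) c x ≠ 0 → r / 2 ≤ ‖x - c‖ ∧ ‖x - c‖ ≤ 3 * r / 2 :=
    fun x hx => zz_supp hul ha h23 hB x hx
  have hval : ∀ x, zz u lam (r / 2) (2 * r) c x ≠ 0 →
      zz u lam (r / 2) (2 * r) c x = u x - ww lam (r / 2) c (u c) x ∧
        ww lam (r / 2) c (u c) x < u x := by
    intro x hx
    unfold zz at hx ⊢
    split_ifs at hx ⊢ with h
    · rcases le_total (u x - ww lam (r / 2) c (u c) x) 0 with h1 | h1
      · exact absurd (max_eq_right h1) hx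
      · rw [max_eq_left h1] at hx ⊢
        refine ⟨rfl, ?_⟩
        have := lt_of_le_of_ne h1 (Ne.symm hx)
        linarith
    · exact absurd rfl hx
  set z := zz u lam (r / 2) (2 * r) c with hz
  have hz0 : ∀ x, 0 ≤ z x := fun x => zz_nonneg u lam _ _ c x
  have hcs : HasCompactSupport z := by
    refine HasCompactSupport.intro (isCompact_closedBall c (2 * r)) fun x hx => ?_
    by_contra h
    have := (hsupp x h).2
    rw [mem_closedBall, dist_eq_norm] at hx
    exact hx (by linarith)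
  have hzint : Integrable z := hC.continuous.integrable_of_hasCompactSupport hcs
  -- lower bound
  set K := (r / 20) * (r / 2) ^ (2 * m) / (8 * lam ^ 2) with hK
  have hK0 : 0 ≤ K := by positivity
  have hlow := integral_lower (K := K) (δ := δ) (t₀ := 3 * r / 5) hzint hz0 H.he hK0 hδ
    ⌊r / (10 * δ)⌋₊ (by
      intro j hj x hx
      have h1 : (j : ℝ) ≤ r / (10 * δ) :=
        le_trans (by exact_mod_cast hj) (Nat.floor_le (by positivity))
      rw [le_div_iff₀ (by positivity)] at h1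
      have h2 : 3 * r / 5 ≤ 3 * r / 5 + 2 * (j : ℝ) * δ := by
        have : 0 ≤ (j : ℝ) * δ := by positivity
        linarith
      have h3 : 3 * r / 5 + 2 * (j : ℝ) * δ ≤ 4 * r / 5 := by linarith
      obtain ⟨h4, h5⟩ := H.lower hlam hl3 hδ hδr hδ2 h2 h3 hx
      rw [hz]
      unfold zz
      rw [if_pos h4]
      exact h5.trans (le_max_left _ _))
  have hN : r / (10 * δ) ≤ (⌊r / (10 * δ)⌋₊ : ℝ) + 1 := (Nat.lt_floor_add_one _).le
  have hom := om_pos m
  have h1 : K * (r / (10 * δ) * (δ ^ m * om m)) ≤ ∫ x, z x := by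
    refine le_trans ?_ hlow
    have : 0 ≤ δ ^ m * om m := by positivity
    gcongr
  -- left side
  have hfi : Integrable fun x => lam / ‖x - c‖ ^ (m + 1) * z x := by
    refine Integrable.mono' (hzint.const_mul (lam / (r / 2) ^ (m + 1))) ?_
      (Eventually.of_forall fun x => ?_)
    · refine AEStronglyMeasurable.mul ?_ hzint.aestronglyMeasurable
      have : Measurable fun x : E m => lam / ‖x - c‖ ^ (m + 1) :=
        measurable_const.div ((measurable_id.sub_const c).norm.pow_const _)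
      exact this.aestronglyMeasurable
    · rw [norm_mul, Real.norm_eq_abs, Real.norm_eq_abs, abs_of_nonneg (hz0 x),
        abs_of_nonneg (by positivity : 0 ≤ lam / ‖x - c‖ ^ (m + 1))]
      by_cases h : z x = 0
      · rw [h, mul_zero, mul_zero]
      · have h2 := (hsupp x h).1
        have := hz0 x
        gcongr
  have h2 : lam / (2 * r) ^ (m + 1) * ∫ x, z x ≤ ∫ x, lam / ‖x - c‖ ^ (m + 1) * z x := by
    rw [← integral_const_mul]
    refine integral_mono (hzint.const_mul _) hfi fun x => ?_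
    show lam / (2 * r) ^ (m + 1) * z x ≤ lam / ‖x - c‖ ^ (m + 1) * z x
    by_cases h : z x = 0
    · rw [h, mul_zero, mul_zero]
    · obtain ⟨h2, h3⟩ := hsupp x h
      have h4 : 0 < ‖x - c‖ := by linarith
      have h5 : ‖x - c‖ ≤ 2 * r := by linarith
      have := hz0 x
      gcongr
  -- right side
  have hTΩ : tube c e r δ' ⊆ Ω := inter_subset_right.trans hball
  have hC1 := C1_pos m hr
  have hρT : IntegrableOn (fun x => |ρ x|) Ω := hρ.norm
  have h3 : ∫ x in Ω, ρ x * z x ≤ C1 m r / lam ^ 2 * ∫ x in tube c e r δ', |ρ x| := by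
    have e1 : C1 m r / lam ^ 2 * ∫ x in tube c e r δ', |ρ x|
        = ∫ x in Ω, (tube c e r δ').indicator (fun x => C1 m r / lam ^ 2 * |ρ x|) x := by
      rw [setIntegral_indicator (tube_meas c e r δ'), inter_eq_self_of_subset_right hTΩ,
        integral_const_mul]
    rw [e1]
    refine integral_mono (integrable_rho hO hb hC.continuous.continuousOn hρ)
      ((hρT.const_mul _).indicator (tube_meas c e r δ')) fun x => ?_
    show ρ x * z x ≤ (tube c e r δ').indicator (fun x => C1 m r / lam ^ 2 * |ρ x|) x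
    by_cases h : z x = 0
    · rw [h, mul_zero]
      refine indicator_nonneg (fun y _ => ?_) x
      positivity
    · obtain ⟨h2, h3⟩ := hsupp x h
      obtain ⟨h4, h5⟩ := hval x h
      have h6 : ‖x - c‖ ≤ 2 * r := by linarith
      have h7 := H.close hlam h2 h6 h5
      have h8 : ‖(x - c) - ‖x - c‖ • e‖ ≤ δ' := by
        refine abs_le_of_sq_le_sq' ?_ hδ'.le |>.2
        exact h7.trans hδ'2
      rw [indicator_of_mem (mem_tube H.he hδ' h6 h8)]
      have h9 := H.diff_le hlam h2 h6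
      rw [← h4] at h9
      calc ρ x * z x ≤ |ρ x| * z x := by
            have := hz0 x
            have := le_abs_self (ρ x)
            gcongr
        _ ≤ |ρ x| * (C1 m r / lam ^ 2) := by gcongr
        _ = C1 m r / lam ^ 2 * |ρ x| := mul_comm _ _
  calc lam / (2 * r) ^ (m + 1) * (K * (r / (10 * δ) * (δ ^ m * om m)))
      ≤ lam / (2 * r) ^ (m + 1) * ∫ x, z x := by gcongr
    _ ≤ ∫ x, lam / ‖x - c‖ ^ (m + 1) * z x := h2
    _ ≤ ∫ x in Ω, ρ x * z x := hmain
    _ ≤ _ := h3

end Pool.Agent.U562.BI
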