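import Pool.Agent.U562.BI.Key2

/-!
# A light segment cannot end in the interior
-/

set_option autoImplicit false

open MeasureTheory Metric Set Real Filter Topology
open scoped ENNReal

namespace Pool.Agent.U562.BI

variable {n : ℕ} {Ω : Set (E (n + 2))} {φ ρ u : E (n + 2) → ℝ} {c e : E (n + 2)} {r : ℝ}

theorem scaling {r lam C6 C4 om' : ℝ} (n : ℕ) (hr : 0 < r) (hlam : 0 < lam) (hC4 : 0 < C4) :
    lam / (2 * r) ^ (n + 2 + 1) * (C6 / lam ^ 2 *
      (r / (10 * (C4 / lam)) * ((C4 / lam) ^ (n + 2) * om')))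
      = (1 / (2 * r) ^ (n + 2 + 1) * C6 * (r / 10) * C4 ^ (n + 1) * om') / lam ^ (n + 2) := by
  rw [div_pow]
  field_simp
  ring

theorem key (hO : IsOpen Ω) (hb : Bornology.IsBounded Ω)
    (hρ : IntegrableOn ρ Ω) (hu : IsMinimizer Ω φ ρ u) (H : Loc u c e r)
    (hball : closedBall c (2 * r) ⊆ Ω)
    (hloc : IntegrableOn (fun x => |ρ x| ^ (n + 1)) (closedBall c (2 * r))) : False := by
  have hr := H.hr
  set κ := u c + 3 * r / 2 - u (c + (3 * r / 2) • e) with hκ
  have hκ0 : 0 < κ := H.kappa_pos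
  have hC1 := C1_pos (n + 2) hr
  set D1 := C1 (n + 2) r with hD1
  have hom := om_pos (n + 2)
  set om' := om (n + 2) with hom'
  set C6 := (r / 20) * (r / 2) ^ (2 * (n + 2)) / 8 with hC6
  have hC60 : 0 < C6 := by positivity
  set C4 := √(C6 * r / 5) with hC4
  have hC40 : 0 < C4 := Real.sqrt_pos.2 (by positivity)
  have hC4sq : C4 ^ 2 = C6 * r / 5 := Real.sq_sqrt (by positivity)
  set C3 := √(12 * r * D1) with hC3
  have hC30 : 0 < C3 := Real.sqrt_pos.2 (by positivity)
  have hC3sq : C3 ^ 2 = 12 * r * D1 := Real.sq_sqrt (by positivity)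
  set c0 := 1 / (2 * r) ^ (n + 2 + 1) * C6 * (r / 10) * C4 ^ (n + 1) * om' with hc0
  have hc00 : 0 < c0 := by positivity
  set V := 4 * r * 2 ^ (n + 2) * om' * C3 ^ (n + 1) with hV
  have hV0 : 0 < V := by positivity
  set ε := c0 / (3 * D1 * V) with hε
  have hε0 : 0 < ε := by positivity
  -- limits
  have hpow : Tendsto (fun lam : ℝ => lam ^ 2) atTop atTop := tendsto_pow_atTop two_ne_zero
  have hlim : ∀ A : ℝ, Tendsto (fun lam : ℝ => A / lam ^ 2) atTop (𝓝 0) := fun A =>
    tendsto_const_nhds.div_atTop hpow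
  have hlim1 : ∀ A : ℝ, Tendsto (fun lam : ℝ => A / lam) atTop (𝓝 0) := fun A =>
    tendsto_const_nhds.div_atTop tendsto_id
  have hlimn : Tendsto (fun lam : ℝ => V / lam ^ (n + 1)) atTop (𝓝 0) :=
    tendsto_const_nhds.div_atTop (tendsto_pow_atTop (Nat.succ_ne_zero n))
  have e1 : ∀ᶠ lam : ℝ in atTop, 48 * r * D1 / lam ^ 2 ≤ κ ^ 2 :=
    (hlim (48 * r * D1)).eventually_le_const (by positivity)
  have e2 : ∀ᶠ lam : ℝ in atTop, 2 * D1 / lam ^ 2 ≤ κ :=
    (hlim (2 * D1)).eventually_le_const (by positivity)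
  have e3 : ∀ᶠ lam : ℝ in atTop, (2 * r) ^ (2 * (n + 2)) ≤ lam ^ 2 := hpow.eventually_ge_atTop _
  have e4 : ∀ᶠ lam : ℝ in atTop, C4 / lam ≤ r / 20 :=
    (hlim1 C4).eventually_le_const (by positivity)
  have e5 : ∀ᶠ lam : ℝ in atTop, C3 / lam ≤ 2 * r :=
    (hlim1 C3).eventually_le_const (by positivity)
  have e6 : ∀ᶠ lam : ℝ in atTop, 0 < lam := eventually_gt_atTop 0
  -- volume of the tube
  have hvol : ∀ lam : ℝ, 0 < lam → C3 / lam ≤ 2 * r →
      volume.real (tube c e r (C3 / lam)) ≤ V / lam ^ (n + 1) := by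
    intro lam hlam h
    have h1 := tube_vol (c := c) (e := e) hr (by positivity : 0 < C3 / lam) h
    refine h1.trans (le_of_eq ?_)
    rw [hV, ← hom', mul_pow, div_pow]
    field_simp
    ring
  have hfin : ∀ lam : ℝ, volume (tube c e r (C3 / lam)) ≠ ∞ := fun lam =>
    ((measure_mono inter_subset_right).trans_lt measure_closedBall_lt_top).ne
  have hvol0 : Tendsto (fun lam : ℝ => volume (tube c e r (C3 / lam))) atTop (𝓝 0) := by
    have h1 : Tendsto (fun lam : ℝ => volume.real (tube c e r (C3 / lam))) atTop (𝓝 0) := by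
      refine tendsto_of_tendsto_of_tendsto_of_le_of_le' tendsto_const_nhds hlimn
        (Eventually.of_forall fun lam => measureReal_nonneg) ?_
      filter_upwards [e5, e6] with lam h5 h6
      exact hvol lam h6 h5
    have h2 := ENNReal.tendsto_ofReal h1
    rw [ENNReal.ofReal_zero] at h2
    refine h2.congr fun lam => ?_
    rw [measureReal_def, ENNReal.ofReal_toReal (hfin lam)]
  have hF : Tendsto (fun lam : ℝ => ∫ x in tube c e r (C3 / lam), |ρ x| ^ (n + 1)) atTop (𝓝 0) := by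
    have h1 : Integrable ((closedBall c (2 * r)).indicator fun x => |ρ x| ^ (n + 1)) :=
      (integrable_indicator_iff measurableSet_closedBall).2 hloc
    have h2 := h1.tendsto_setIntegral_nhds_zero (s := fun lam : ℝ => tube c e r (C3 / lam))
      (l := atTop) hvol0
    refine h2.congr fun lam => ?_
    refine setIntegral_congr_fun (tube_meas _ _ _ _) fun x hx => ?_
    exact indicator_of_mem hx.2 _
  have e7 : ∀ᶠ lam : ℝ in atTop, ∫ x in tube c e r (C3 / lam), |ρ x| ^ (n + 1)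
      ≤ c0 * ε ^ n / (3 * D1) := hF.eventually_le_const (by positivity)
  obtain ⟨lam, h1, h2, h3, h4, h5, h6, h7⟩ :=
    (e1.and (e2.and (e3.and (e4.and (e5.and (e6.and e7)))))).exists
  have hδ2 : 5 * (C4 / lam) ^ 2 / r ≤ (r / 20) * (r / 2) ^ (2 * (n + 2)) / (8 * lam ^ 2) := by
    rw [div_pow, hC4sq]
    refine le_of_eq ?_
    rw [hC6]
    field_simp
  have hδ'2 : 12 * r * D1 / lam ^ 2 ≤ (C3 / lam) ^ 2 := by
    rw [div_pow, hC3sq]
  have hK := key_ineq hO hb hρ hu H hball hκ h6 h1 h2 h3 (by positivity : 0 < C4 / lam) h4 hδ2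
    (by positivity : 0 < C3 / lam) hδ'2
  have hKe : (r / 20) * (r / 2) ^ (2 * (n + 2)) / (8 * lam ^ 2) = C6 / lam ^ 2 := by
    rw [hC6]
    field_simp
  rw [hKe, scaling n hr h6 hC40, ← hc0, ← hD1] at hK
  set T := tube c e r (C3 / lam) with hT
  have hTK : T ⊆ closedBall c (2 * r) := inter_subset_right
  have hρT : IntegrableOn (fun x => |ρ x|) T := (hρ.mono_set (hTK.trans hball)).norm
  have hρT2 : IntegrableOn (fun x => |ρ x| ^ (n + 1)) T := hloc.mono_set hTK
  have hcT : IntegrableOn (fun _ : E (n + 2) => ε * lam) T := integrableOn_const (hfin lam)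
  have hsplit : ∫ x in T, |ρ x| ≤ ε * lam * volume.real T
      + (∫ x in T, |ρ x| ^ (n + 1)) / (ε * lam) ^ n := by
    have a1 : ∫ x in T, |ρ x| ≤ ∫ x in T, (ε * lam + |ρ x| ^ (n + 1) / (ε * lam) ^ n) := by
      refine integral_mono hρT (hcT.add (hρT2.div_const _)) fun x => ?_
      exact rho_split (by positivity)
    refine a1.trans (le_of_eq ?_)
    rw [integral_add hcT (hρT2.div_const _), integral_div, setIntegral_const, smul_eq_mul]
    ring
  have hv := hvol lam h6 h5
  rw [← hT] at hv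
  have a2 : c0 ≤ D1 * (lam ^ n * ∫ x in T, |ρ x|) := by
    rw [div_le_iff₀ (by positivity)] at hK
    refine hK.trans (le_of_eq ?_)
    rw [pow_add]
    field_simp
    try ring
  have a3 : lam ^ n * ∫ x in T, |ρ x| ≤ ε * V + (∫ x in T, |ρ x| ^ (n + 1)) / ε ^ n := by
    calc lam ^ n * ∫ x in T, |ρ x|
        ≤ lam ^ n * (ε * lam * (V / lam ^ (n + 1))
            + (∫ x in T, |ρ x| ^ (n + 1)) / (ε * lam) ^ n) := by
          have h10 : ∫ x in T, |ρ x| ≤ ε * lam * (V / lam ^ (n + 1))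
            + (∫ x in T, |ρ x| ^ (n + 1)) / (ε * lam) ^ n := by
            refine hsplit.trans ?_
            gcongr
          gcongr
      _ = ε * V + (∫ x in T, |ρ x| ^ (n + 1)) / ε ^ n := by
          rw [mul_pow, pow_succ]
          field_simp
  have a4 : (∫ x in T, |ρ x| ^ (n + 1)) / ε ^ n ≤ c0 / (3 * D1) := by
    rw [div_le_iff₀ (by positivity)]
    refine h7.trans (le_of_eq ?_)
    ring
  have a5 : ε * V = c0 / (3 * D1) := by
    rw [hε]
    field_simp
  have a6 : c0 ≤ D1 * (c0 / (3 * D1) + c0 / (3 * D1)) := by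
    refine a2.trans ?_
    gcongr
    linarith
  have a7 : D1 * (c0 / (3 * D1) + c0 / (3 * D1)) = 2 * c0 / 3 := by
    field_simp
    ring
  rw [a7] at a6
  linarith

end Pool.Agent.U562.BI
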