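import Pool.Agent.U562.BI.Defs

/-!
# The radial profile and elementary geometry
-/

set_option autoImplicit false

open MeasureTheory Metric Set Real
open scoped ENNReal

namespace Pool.Agent.U562.BI

/-- `ψ' = (1 + τ^(2m)/λ²)^(-1/2)`. -/
noncomputable def gg (m : ℕ) (lam τ : ℝ) : ℝ := 1 / √(1 + τ ^ (2 * m) / lam ^ 2)

theorem one_add_pos (m : ℕ) (lam τ : ℝ) : 0 < 1 + τ ^ (2 * m) / lam ^ 2 := by
  have : 0 ≤ τ ^ (2 * m) := by
    rw [pow_mul]; positivity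
  positivity

theorem gg_pos (m : ℕ) (lam τ : ℝ) : 0 < gg m lam τ := by
  have := one_add_pos m lam τ
  unfold gg
  positivity

theorem gg_le_one (m : ℕ) (lam τ : ℝ) : gg m lam τ ≤ 1 := by
  unfold gg
  rw [div_le_one (Real.sqrt_pos.2 (one_add_pos m lam τ)), Real.one_le_sqrt]
  have : 0 ≤ τ ^ (2 * m) := by
    rw [pow_mul]; positivity
  have : 0 ≤ τ ^ (2 * m) / lam ^ 2 := by positivity
  linarith

theorem continuous_gg (m : ℕ) (lam : ℝ) : Continuous (gg m lam) := by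
  unfold gg
  refine continuous_const.div (by fun_prop) ?_
  intro τ
  exact (Real.sqrt_pos.2 (one_add_pos m lam τ)).ne'

/-- `1 - (1+z)^(-1/2) ≤ z/2`. -/
theorem one_sub_le {z : ℝ} (hz : 0 ≤ z) : 1 - 1 / √(1 + z) ≤ z / 2 := by
  have h1 : √(1 + z) ≤ 1 + z / 2 := by
    rw [Real.sqrt_le_left (by positivity)]
    nlinarith
  have h2 : 0 < √(1 + z) := Real.sqrt_pos.2 (by positivity)
  have h3 : 1 / (1 + z / 2) ≤ 1 / √(1 + z) := one_div_le_one_div_of_le h2 h1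
  have h4 : 1 - z / 2 ≤ 1 / (1 + z / 2) := by
    rw [le_div_iff₀ (by positivity)]
    nlinarith
  linarith

/-- `z/4 ≤ 1 - (1+z)^(-1/2)` for `0 ≤ z ≤ 1`. -/
theorem le_one_sub {z : ℝ} (hz : 0 ≤ z) (hz1 : z ≤ 1) : z / 4 ≤ 1 - 1 / √(1 + z) := by
  have h2 : 0 < √(1 + z) := Real.sqrt_pos.2 (by positivity)
  have h5 : 1 / √(1 + z) ≤ 1 - z / 4 := by
    rw [div_le_iff₀ h2]
    have h6 : (1 : ℝ) = √(1 ^ 2) := by simp
    have h7 : (1 - z / 4) * √(1 + z) = √((1 - z / 4) ^ 2 * (1 + z)) := by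
      rw [Real.sqrt_mul (by positivity), Real.sqrt_sq (by linarith)]
    rw [h7]
    apply Real.le_sqrt_of_sq_le
    nlinarith [mul_nonneg hz (sub_nonneg.2 hz1), sq_nonneg z]
  linarith

/-- The profile `ψ`. -/
noncomputable def psi (m : ℕ) (lam a R : ℝ) : ℝ := a + ∫ τ in a..R, gg m lam τ

theorem hasDerivAt_psi (m : ℕ) (lam a R : ℝ) : HasDerivAt (psi m lam a) (gg m lam R) R := by
  have h := intervalIntegral.integral_hasDerivAt_right
    ((continuous_gg m lam).intervalIntegrable a R)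
    ((continuous_gg m lam).stronglyMeasurableAtFilter _ _) (continuous_gg m lam).continuousAt
  exact h.const_add a

theorem psi_lip (m : ℕ) (lam a : ℝ) : LipschitzWith 1 (psi m lam a) := by
  refine lipschitzWith_of_nnnorm_deriv_le (fun R => (hasDerivAt_psi m lam a R).differentiableAt) ?_
  intro R
  rw [(hasDerivAt_psi m lam a R).deriv, ← NNReal.coe_le_coe, coe_nnnorm, Real.norm_eq_abs,
    abs_of_pos (gg_pos m lam R)]
  exact gg_le_one m lam R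

theorem psi_eq (m : ℕ) (lam a R : ℝ) : psi m lam a R = R - ∫ τ in a..R, (1 - gg m lam τ) := by
  unfold psi
  rw [intervalIntegral.integral_sub (by simp) ((continuous_gg m lam).intervalIntegrable a R)]
  simp
  ring

theorem le_psi_of_le {m : ℕ} {lam a R : ℝ} (h : R ≤ a) : R ≤ psi m lam a R := by
  rw [psi_eq, intervalIntegral.integral_symm]
  have : 0 ≤ ∫ τ in R..a, (1 - gg m lam τ) :=
    intervalIntegral.integral_nonneg h fun τ _ => by
      have := gg_le_one m lam τ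
      linarith
  linarith

theorem psi_lower {m : ℕ} {lam a b R : ℝ} (ha : 0 ≤ a) (haR : a ≤ R) (hR : R ≤ b) :
    R - b ^ (2 * m + 1) / (2 * lam ^ 2) ≤ psi m lam a R := by
  rw [psi_eq]
  have h1 : ∫ τ in a..R, (1 - gg m lam τ) ≤ ∫ τ in a..R, b ^ (2 * m) / lam ^ 2 / 2 := by
    refine intervalIntegral.integral_mono_on haR ?_ (by simp) ?_
    · exact (continuous_const.sub (continuous_gg m lam)).intervalIntegrable a R
    · intro τ hτ
      have h2 : τ ^ (2 * m) ≤ b ^ (2 * m) := pow_le_pow_left₀ (ha.trans hτ.1) (hτ.2.trans hR) _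
      have h3 : 0 ≤ τ ^ (2 * m) := by
        rw [pow_mul]; positivity
      refine (one_sub_le (by positivity)).trans ?_
      gcongr
  rw [intervalIntegral.integral_const, smul_eq_mul] at h1
  have hb : 0 ≤ b := ha.trans (haR.trans hR)
  have h4 : (R - a) * (b ^ (2 * m) / lam ^ 2 / 2) ≤ b * (b ^ (2 * m) / lam ^ 2 / 2) := by
    gcongr
    linarith
  have h5 : b * (b ^ (2 * m) / lam ^ 2 / 2) = b ^ (2 * m + 1) / (2 * lam ^ 2) := by
    rw [pow_succ]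
    rcases eq_or_ne lam 0 with h | h
    · simp [h]
    · field_simp
      ring
  linarith

theorem psi_le_self {m : ℕ} {lam a R : ℝ} (haR : a ≤ R) : psi m lam a R ≤ R := by
  rw [psi_eq]
  have : 0 ≤ ∫ τ in a..R, (1 - gg m lam τ) :=
    intervalIntegral.integral_nonneg haR fun τ _ => by
      have := gg_le_one m lam τ
      linarith
  linarith

theorem psi_upper {m : ℕ} {lam a t R : ℝ} (ha : 0 ≤ a) (hat : a ≤ t) (htR : t ≤ R)
    (hlam : 0 < lam) (hb : R ^ (2 * m) ≤ lam ^ 2) :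
    psi m lam a R ≤ R - (t - a) * a ^ (2 * m) / (4 * lam ^ 2) := by
  rw [psi_eq]
  have h1 : ∫ τ in a..R, a ^ (2 * m) / lam ^ 2 / 4 ≤ ∫ τ in a..R, (1 - gg m lam τ) := by
    refine intervalIntegral.integral_mono_on (hat.trans htR) (by simp) ?_ ?_
    · exact (continuous_const.sub (continuous_gg m lam)).intervalIntegrable a R
    · intro τ hτ
      have h2 : a ^ (2 * m) ≤ τ ^ (2 * m) := pow_le_pow_left₀ ha hτ.1 _
      have h3 : 0 ≤ τ ^ (2 * m) := by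
        rw [pow_mul]; positivity
      have h4 : τ ^ (2 * m) ≤ R ^ (2 * m) := pow_le_pow_left₀ (ha.trans hτ.1) hτ.2 _
      have h5 : τ ^ (2 * m) / lam ^ 2 ≤ 1 := by
        rw [div_le_one (by positivity)]
        exact h4.trans hb
      refine le_trans ?_ (le_one_sub (by positivity) h5)
      gcongr
  rw [intervalIntegral.integral_const, smul_eq_mul] at h1
  have h4 : (t - a) * (a ^ (2 * m) / lam ^ 2 / 4) ≤ (R - a) * (a ^ (2 * m) / lam ^ 2 / 4) := by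
    gcongr
  have h5 : (t - a) * (a ^ (2 * m) / lam ^ 2 / 4) = (t - a) * a ^ (2 * m) / (4 * lam ^ 2) := by
    field_simp
  linarith

section geom

variable {V : Type*} [NormedAddCommGroup V] [InnerProductSpace ℝ V]

/-- The upper cone. -/
theorem cone_upper {h e : V} {δ : ℝ} (he : ‖e‖ = 1) (hδ : 0 < δ) :
    ‖h + δ • e‖ ≤ ‖h‖ + δ - δ * (‖h‖ - inner ℝ h e) / (‖h‖ + δ) := by
  have hR := norm_nonneg h
  have ht : |inner ℝ h e| ≤ ‖h‖ := by
    have := abs_real_inner_le_norm h e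
    rwa [he, mul_one] at this
  have ht' := abs_le.1 ht
  have h1 : ‖h + δ • e‖ ^ 2 = (‖h‖ + δ) ^ 2 - 2 * δ * (‖h‖ - inner ℝ h e) := by
    rw [norm_add_sq_real, inner_smul_right, norm_smul, he, Real.norm_eq_abs, abs_of_pos hδ]
    ring
  have hpos : 0 < ‖h‖ + δ := by positivity
  have h2 : 0 ≤ ‖h‖ + δ - δ * (‖h‖ - inner ℝ h e) / (‖h‖ + δ) := by
    rw [sub_nonneg, div_le_iff₀ hpos]
    nlinarith [mul_nonneg hδ.le (sub_nonneg.2 ht'.1), sq_nonneg (‖h‖ - δ)]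
  refine abs_le_of_sq_le_sq' ?_ h2 |>.2
  rw [h1]
  have h3 : (‖h‖ + δ - δ * (‖h‖ - inner ℝ h e) / (‖h‖ + δ)) ^ 2
      = (‖h‖ + δ) ^ 2 - 2 * δ * (‖h‖ - inner ℝ h e)
        + (δ * (‖h‖ - inner ℝ h e) / (‖h‖ + δ)) ^ 2 := by
    field_simp
    ring
  rw [h3]
  have := sq_nonneg (δ * (‖h‖ - inner ℝ h e) / (‖h‖ + δ))
  linarith

theorem norm_sub_ray {h e : V} (he : ‖e‖ = 1) :
    ‖h - ‖h‖ • e‖ ^ 2 = 2 * ‖h‖ * (‖h‖ - inner ℝ h e) := by
  rw [norm_sub_sq_real, inner_smul_right, norm_smul, he, norm_norm]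
  ring

theorem lower_cone {h e : V} {b : ℝ} (he : ‖e‖ = 1) (hb : inner ℝ h e < b) :
    ‖h - b • e‖ ≤ (b - inner ℝ h e) + (‖h‖ ^ 2 - inner ℝ h e ^ 2) / (2 * (b - inner ℝ h e)) := by
  have ht : |inner ℝ h e| ≤ ‖h‖ := by
    have := abs_real_inner_le_norm h e
    rwa [he, mul_one] at this
  have h0 : 0 ≤ ‖h‖ ^ 2 - inner ℝ h e ^ 2 := by
    have := sq_le_sq' (abs_le.1 ht).1 (abs_le.1 ht).2
    linarith
  have hpos : 0 < b - inner ℝ h e := by linarith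
  have h1 : ‖h - b • e‖ ^ 2 = (b - inner ℝ h e) ^ 2 + (‖h‖ ^ 2 - inner ℝ h e ^ 2) := by
    rw [norm_sub_sq_real, inner_smul_right, norm_smul, he, Real.norm_eq_abs, mul_one, sq_abs]
    ring
  refine abs_le_of_sq_le_sq' ?_ (by positivity) |>.2
  rw [h1]
  have h3 : ((b - inner ℝ h e) + (‖h‖ ^ 2 - inner ℝ h e ^ 2) / (2 * (b - inner ℝ h e))) ^ 2
      = (b - inner ℝ h e) ^ 2 + (‖h‖ ^ 2 - inner ℝ h e ^ 2)
        + ((‖h‖ ^ 2 - inner ℝ h e ^ 2) / (2 * (b - inner ℝ h e))) ^ 2 := by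
    field_simp
    ring
  rw [h3]
  have := sq_nonneg ((‖h‖ ^ 2 - inner ℝ h e ^ 2) / (2 * (b - inner ℝ h e)))
  linarith

theorem norm_le_axis {h e : V} (he : ‖e‖ = 1) (hb : 0 < inner ℝ h e) :
    ‖h‖ ≤ inner ℝ h e + (‖h‖ ^ 2 - inner ℝ h e ^ 2) / (2 * inner ℝ h e) := by
  have ht : |inner ℝ h e| ≤ ‖h‖ := by
    have := abs_real_inner_le_norm h e
    rwa [he, mul_one] at this
  have h0 : 0 ≤ ‖h‖ ^ 2 - inner ℝ h e ^ 2 := by
    have := sq_le_sq' (abs_le.1 ht).1 (abs_le.1 ht).2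
    linarith
  refine abs_le_of_sq_le_sq' ?_ (by positivity) |>.2
  have h3 : (inner ℝ h e + (‖h‖ ^ 2 - inner ℝ h e ^ 2) / (2 * inner ℝ h e)) ^ 2
      = ‖h‖ ^ 2 + ((‖h‖ ^ 2 - inner ℝ h e ^ 2) / (2 * inner ℝ h e)) ^ 2 := by
    field_simp
    ring
  rw [h3]
  have := sq_nonneg ((‖h‖ ^ 2 - inner ℝ h e ^ 2) / (2 * inner ℝ h e))
  linarith

/-- The duality inequality. -/
theorem dual_ineq {p : V →L[ℝ] ℝ} (hp : ‖p‖ ≤ 1) (X : V) :
    √(1 - ‖p‖ ^ 2) + p X ≤ √(1 + ‖X‖ ^ 2) := by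
  have h1 : p X ≤ ‖p‖ * ‖X‖ := (le_abs_self _).trans (p.le_opNorm X)
  have h0 := norm_nonneg p
  have h2 : 0 ≤ 1 - ‖p‖ ^ 2 := by nlinarith
  have hs := Real.sq_sqrt h2
  have hs0 := Real.sqrt_nonneg (1 - ‖p‖ ^ 2)
  apply Real.le_sqrt_of_sq_le
  rcases le_or_gt (√(1 - ‖p‖ ^ 2) + p X) 0 with h | h
  · have h3 : (√(1 - ‖p‖ ^ 2) + p X) ^ 2 ≤ (‖p‖ * ‖X‖) ^ 2 := by
      have h4 : |p X| ≤ ‖p‖ * ‖X‖ := p.le_opNorm X
      have h5 := (abs_le.1 h4).1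
      apply sq_le_sq'
      · linarith
      · have := norm_nonneg X
        nlinarith
    have h6 : (‖p‖ * ‖X‖) ^ 2 ≤ ‖X‖ ^ 2 := by
      rw [mul_pow]
      have : ‖p‖ ^ 2 ≤ 1 := by nlinarith
      nlinarith [sq_nonneg ‖X‖]
    linarith
  · have h3 : (√(1 - ‖p‖ ^ 2) + p X) ^ 2 ≤ (√(1 - ‖p‖ ^ 2) + ‖p‖ * ‖X‖) ^ 2 := by
      gcongr
    nlinarith [sq_nonneg (√(1 - ‖p‖ ^ 2) * ‖X‖ - ‖p‖)]

end geom

end Pool.Agent.U562.BI
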